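import Mathlib

/-!
General closure lemmas for `Computable`, `ComputablePred` and `REPred`.
-/

namespace Pool.Agent.OmegaTT

open Encodable

variable {α β γ σ : Type*} [Primcodable α] [Primcodable β] [Primcodable γ] [Primcodable σ]

/-! ### Lists with computable arguments -/

theorem comp_list_foldl {f : α → List β} {g : α → σ} {h : α → σ × β → σ}
    (hf : Computable f) (hg : Computable g) (hh : Computable₂ h) :
    Computable fun a => (f a).foldl (fun s b => h a (s, b)) (g a) := by
  have key : ∀ (a : α) (l : List β) (n : ℕ) (s : σ), n ≤ l.length →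
      (Nat.rec s (fun i acc => ((l[i]?).map (fun b => h a (acc, b))).getD acc) n : σ)
        = (l.take n).foldl (fun s b => h a (s, b)) s := by
    intro a l n s hn
    induction n with
    | zero => simp
    | succ n ih =>
      have hn' : n < l.length := hn
      simp only [ih (le_of_lt hn')]
      rw [List.take_succ_eq_append_getElem hn', List.foldl_append]
      simp [List.getElem?_eq_getElem hn']
  have hc : Computable fun a : α =>
      (Nat.rec (g a) (fun i acc => (((f a)[i]?).map (fun b => h a (acc, b))).getD acc)
        (f a).length : σ) := by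
    refine Computable.nat_rec (h := fun a (p : ℕ × σ) =>
      (((f a)[p.1]?).map (fun b => h a (p.2, b))).getD p.2) (Computable.list_length.comp hf) hg ?_
    refine Computable.option_getD ?_ (Computable.snd.comp Computable.snd)
    refine Computable.option_map ?_ ?_
    · exact Computable.list_getElem?.comp (hf.comp Computable.fst)
        (Computable.fst.comp Computable.snd)
    · refine Computable₂.comp hh (Computable.fst.comp Computable.fst) ?_
      exact Computable.pair (Computable.snd.comp (Computable.snd.comp Computable.fst))
        Computable.snd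
  refine hc.of_eq fun a => ?_
  have := key a (f a) (f a).length (g a) le_rfl
  rw [this, List.take_length]

theorem comp_list_map {f : α → List β} {g : α → β → σ}
    (hf : Computable f) (hg : Computable₂ g) :
    Computable fun a => (f a).map (g a) := by
  have : Computable fun a => (f a).foldl (fun (s : List σ) b => s ++ [g a b]) [] := by
    refine comp_list_foldl (h := fun a (p : List σ × β) => p.1 ++ [g a p.2]) hf
      (Computable.const _) ?_
    exact Computable.list_concat.comp (Computable.fst.comp Computable.snd)
      (hg.comp Computable.fst (Computable.snd.comp Computable.snd))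
  refine this.of_eq fun a => ?_
  have key : ∀ (l : List β) (s : List σ),
      l.foldl (fun (s : List σ) b => s ++ [g a b]) s = s ++ l.map (g a) := by
    intro l
    induction l with
    | nil => simp
    | cons b l ih => intro s; simp [ih]
  simpa using key (f a) []

theorem comp_list_filter {f : α → List β} {g : α → β → Bool}
    (hf : Computable f) (hg : Computable₂ g) :
    Computable fun a => (f a).filter (g a) := by
  have : Computable fun a => (f a).foldl
      (fun (s : List β) b => cond (g a b) (s ++ [b]) s) [] := by
    refine comp_list_foldl (h := fun a (p : List β × β) => cond (g a p.2) (p.1 ++ [p.2]) p.1) hf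
      (Computable.const _) ?_
    refine Computable.cond (hg.comp Computable.fst (Computable.snd.comp Computable.snd)) ?_ ?_
    · exact Computable.list_concat.comp (Computable.fst.comp Computable.snd)
        (Computable.snd.comp Computable.snd)
    · exact Computable.fst.comp Computable.snd
  refine this.of_eq fun a => ?_
  have key : ∀ (l : List β) (s : List β),
      l.foldl (fun (s : List β) b => cond (g a b) (s ++ [b]) s) s = s ++ l.filter (g a) := by
    intro l
    induction l with
    | nil => simp
    | cons b l ih =>
      intro s
      simp only [List.foldl_cons, ih, List.filter_cons]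
      cases g a b <;> simp
  simpa using key (f a) []

theorem comp_list_all {f : α → List β} {g : α → β → Bool}
    (hf : Computable f) (hg : Computable₂ g) :
    Computable fun a => (f a).all (g a) := by
  have : Computable fun a => (f a).foldl
      (fun (s : Bool) b => s && g a b) true := by
    refine comp_list_foldl (h := fun a (p : Bool × β) => p.1 && g a p.2) hf
      (Computable.const _) ?_
    exact Primrec.and.to_comp.comp (Computable.fst.comp Computable.snd)
      (hg.comp Computable.fst (Computable.snd.comp Computable.snd))
  refine this.of_eq fun a => ?_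
  have key : ∀ (l : List β) (s : Bool),
      l.foldl (fun (s : Bool) b => s && g a b) s = (s && l.all (g a)) := by
    intro l
    induction l with
    | nil => simp
    | cons b l ih => intro s; simp [ih, Bool.and_assoc]
  simpa using key (f a) true

theorem comp_list_any {f : α → List β} {g : α → β → Bool}
    (hf : Computable f) (hg : Computable₂ g) :
    Computable fun a => (f a).any (g a) := by
  have : Computable fun a => (f a).foldl
      (fun (s : Bool) b => s || g a b) false := by
    refine comp_list_foldl (h := fun a (p : Bool × β) => p.1 || g a p.2) hf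
      (Computable.const _) ?_
    exact Primrec.or.to_comp.comp (Computable.fst.comp Computable.snd)
      (hg.comp Computable.fst (Computable.snd.comp Computable.snd))
  refine this.of_eq fun a => ?_
  have key : ∀ (l : List β) (s : Bool),
      l.foldl (fun (s : Bool) b => s || g a b) s = (s || l.any (g a)) := by
    intro l
    induction l with
    | nil => simp
    | cons b l ih => intro s; simp [ih, Bool.or_assoc]
  simpa using key (f a) false

theorem comp_list_range {f : α → ℕ} (hf : Computable f) :
    Computable fun a => List.range (f a) :=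
  Primrec.list_range.to_comp.comp hf

/-! ### Computable predicates -/

theorem CP_iff {p : α → Prop} [DecidablePred p] :
    ComputablePred p ↔ Computable (fun a => decide (p a)) :=
  computablePred_iff_computable_decide

theorem CP_and {p q : α → Prop} (hp : ComputablePred p) (hq : ComputablePred q) :
    ComputablePred fun a => p a ∧ q a := by
  obtain ⟨f, hf, rfl⟩ := ComputablePred.computable_iff.1 hp
  obtain ⟨g, hg, rfl⟩ := ComputablePred.computable_iff.1 hq
  refine ComputablePred.computable_iff.2 ⟨fun a => f a && g a, Primrec.and.to_comp.comp hf hg, ?_⟩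
  funext a; simp

theorem CP_or {p q : α → Prop} (hp : ComputablePred p) (hq : ComputablePred q) :
    ComputablePred fun a => p a ∨ q a := by
  obtain ⟨f, hf, rfl⟩ := ComputablePred.computable_iff.1 hp
  obtain ⟨g, hg, rfl⟩ := ComputablePred.computable_iff.1 hq
  refine ComputablePred.computable_iff.2 ⟨fun a => f a || g a, Primrec.or.to_comp.comp hf hg, ?_⟩
  funext a; simp

theorem CP_not {p : α → Prop} (hp : ComputablePred p) : ComputablePred fun a => ¬ p a := hp.not

theorem CP_imp {p q : α → Prop} (hp : ComputablePred p) (hq : ComputablePred q) :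
    ComputablePred fun a => p a → q a :=
  (CP_or hp.not hq).of_eq fun a => by tauto

theorem CP_const (p : Prop) : ComputablePred fun _ : α => p := by
  classical
  by_cases h : p
  · exact ComputablePred.computable_iff.2 ⟨fun _ => true, Computable.const _, by simp [h]⟩
  · exact ComputablePred.computable_iff.2 ⟨fun _ => false, Computable.const _, by simp [h]⟩

theorem CP_comp {p : β → Prop} {f : α → β} (hp : ComputablePred p) (hf : Computable f) :
    ComputablePred fun a => p (f a) := by
  obtain ⟨g, hg, rfl⟩ := ComputablePred.computable_iff.1 hp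
  exact ComputablePred.computable_iff.2 ⟨fun a => g (f a), hg.comp hf, rfl⟩

theorem CP_bool {f : α → Bool} (hf : Computable f) : ComputablePred fun a => f a = true :=
  ComputablePred.computable_iff.2 ⟨f, hf, rfl⟩

theorem CP_eq {f g : α → β} (hf : Computable f) (hg : Computable g) :
    ComputablePred fun a => f a = g a := by
  classical
  have : Computable fun a => decide (encode (f a) = encode (g a)) := by
    have h : Computable₂ fun a b : ℕ => decide (a = b) := (Primrec.eq (α := ℕ)).decide.to_comp
    exact h.comp (Computable.encode.comp hf) (Computable.encode.comp hg)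
  refine ComputablePred.computable_iff.2 ⟨_, this, ?_⟩
  funext a; simp

theorem CP_le {f g : α → ℕ} (hf : Computable f) (hg : Computable g) :
    ComputablePred fun a => f a ≤ g a := by
  have : Computable fun a => decide (f a ≤ g a) := by
    have h : Computable₂ fun a b : ℕ => decide (a ≤ b) := Primrec.nat_le.decide.to_comp
    exact h.comp hf hg
  refine ComputablePred.computable_iff.2 ⟨_, this, ?_⟩
  funext a; simp

theorem CP_lt {f g : α → ℕ} (hf : Computable f) (hg : Computable g) :
    ComputablePred fun a => f a < g a := by
  have : Computable fun a => decide (f a < g a) := by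
    have h : Computable₂ fun a b : ℕ => decide (a < b) := Primrec.nat_lt.decide.to_comp
    exact h.comp hf hg
  refine ComputablePred.computable_iff.2 ⟨_, this, ?_⟩
  funext a; simp

theorem CP_forall_list {f : α → List β} {p : α → β → Prop} (hf : Computable f)
    (hp : ComputablePred fun x : α × β => p x.1 x.2) :
    ComputablePred fun a => ∀ b ∈ f a, p a b := by
  obtain ⟨g, hg, hgp⟩ := ComputablePred.computable_iff.1 hp
  refine ComputablePred.computable_iff.2 ⟨fun a => (f a).all (fun b => g (a, b)),
    comp_list_all hf hg.to₂, ?_⟩
  funext a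
  have : ∀ b, p a b ↔ g (a, b) = true := fun b => by
    have := congrFun hgp (a, b); simpa using this
  simp [this]

theorem CP_exists_list {f : α → List β} {p : α → β → Prop} (hf : Computable f)
    (hp : ComputablePred fun x : α × β => p x.1 x.2) :
    ComputablePred fun a => ∃ b ∈ f a, p a b := by
  obtain ⟨g, hg, hgp⟩ := ComputablePred.computable_iff.1 hp
  refine ComputablePred.computable_iff.2 ⟨fun a => (f a).any (fun b => g (a, b)),
    comp_list_any hf hg.to₂, ?_⟩
  funext a
  have : ∀ b, p a b ↔ g (a, b) = true := fun b => by
    have := congrFun hgp (a, b); simpa using this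
  simp [this]

theorem CP_forall_lt {f : α → ℕ} {p : α → ℕ → Prop} (hf : Computable f)
    (hp : ComputablePred fun x : α × ℕ => p x.1 x.2) :
    ComputablePred fun a => ∀ i < f a, p a i :=
  (CP_forall_list (comp_list_range hf) hp).of_eq fun a => by simp

theorem CP_exists_lt {f : α → ℕ} {p : α → ℕ → Prop} (hf : Computable f)
    (hp : ComputablePred fun x : α × ℕ => p x.1 x.2) :
    ComputablePred fun a => ∃ i < f a, p a i :=
  (CP_exists_list (comp_list_range hf) hp).of_eq fun a => by simp

theorem comp_ite {c : α → Prop} [DecidablePred c] {f g : α → σ} (hc : ComputablePred c)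
    (hf : Computable f) (hg : Computable g) : Computable fun a => if c a then f a else g a := by
  have := Computable.cond hc.decide hf hg
  refine this.of_eq fun a => ?_
  by_cases h : c a <;> simp [h]

/-! ### Recursively enumerable predicates -/

theorem RE_comp {p : β → Prop} {f : α → β} (hp : REPred p) (hf : Computable f) :
    REPred fun a => p (f a) :=
  Partrec.comp hp hf

theorem RE_of_exists {p : α → ℕ → Prop} (hp : ComputablePred fun x : α × ℕ => p x.1 x.2) :
    REPred fun a => ∃ s, p a s := by
  classical
  have h0 : Computable₂ fun (a : α) (n : ℕ) => cond (decide (p a n)) (some ()) none :=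
    Computable.cond hp.decide (Computable.const _) (Computable.const _)
  have h1 := Partrec.rfindOpt h0
  refine h1.dom_re.of_eq fun a => ?_
  rw [Nat.rfindOpt_dom]
  constructor
  · rintro ⟨n, x, hx⟩
    refine ⟨n, ?_⟩
    by_contra hcon
    simp [hcon] at hx
  · rintro ⟨n, hn⟩
    exact ⟨n, (), by simp [hn]⟩

/-- Every r.e. predicate has a computable monotone approximation. -/
theorem RE_approx {p : α → Prop} (hp : REPred p) :
    ∃ f : α → ℕ → Bool, Computable₂ f ∧ (∀ a s t, s ≤ t → f a s = true → f a t = true) ∧
      ∀ a, p a ↔ ∃ s, f a s = true := by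
  obtain ⟨c, hc⟩ := Nat.Partrec.Code.exists_code.1 hp
  refine ⟨fun a s => (Nat.Partrec.Code.evaln s c (encode a)).isSome, ?_, ?_, ?_⟩
  · have h1 : Computable fun x : α × ℕ =>
        Nat.Partrec.Code.evaln x.2 c (encode x.1) :=
      Nat.Partrec.Code.primrec_evaln.to_comp.comp
        (((Computable.snd).pair (Computable.const c)).pair
          (Computable.encode.comp Computable.fst))
    exact Primrec.option_isSome.to_comp.comp h1
  · intro a s t hst h
    rw [Option.isSome_iff_exists] at h ⊢
    obtain ⟨x, hx⟩ := h
    exact ⟨x, Nat.Partrec.Code.evaln_mono hst hx⟩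
  · intro a
    have h2 : p a ↔ (c.eval (encode a)).Dom := by
      rw [hc]
      simp [Part.assert]
    rw [h2, Part.dom_iff_mem]
    constructor
    · rintro ⟨y, hy⟩
      obtain ⟨k, hk⟩ := Nat.Partrec.Code.evaln_complete.1 hy
      exact ⟨k, by rw [Option.isSome_iff_exists]; exact ⟨y, hk⟩⟩
    · rintro ⟨s, hs⟩
      rw [Option.isSome_iff_exists] at hs
      obtain ⟨y, hy⟩ := hs
      exact ⟨y, Nat.Partrec.Code.evaln_complete.2 ⟨s, hy⟩⟩

theorem RE_iff {p : α → Prop} :
    REPred p ↔ ∃ f : α → ℕ → Bool, Computable₂ f ∧
      (∀ a s t, s ≤ t → f a s = true → f a t = true) ∧ ∀ a, p a ↔ ∃ s, f a s = true := by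
  refine ⟨RE_approx, ?_⟩
  rintro ⟨f, hf, -, h⟩
  have : REPred fun a => ∃ s, f a s = true := RE_of_exists (p := fun a s => f a s = true) (CP_bool hf)
  exact this.of_eq fun a => (h a).symm

theorem RE_and {p q : α → Prop} (hp : REPred p) (hq : REPred q) : REPred fun a => p a ∧ q a := by
  obtain ⟨f, hf, fm, hfp⟩ := RE_approx hp
  obtain ⟨g, hg, gm, hgq⟩ := RE_approx hq
  refine RE_iff.2 ⟨fun a s => f a s && g a s, Primrec.and.to_comp.comp hf hg, ?_, ?_⟩
  · intro a s t hst h
    simp only [Bool.and_eq_true] at h ⊢
    exact ⟨fm a s t hst h.1, gm a s t hst h.2⟩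
  · intro a
    rw [hfp, hgq]
    constructor
    · rintro ⟨⟨s, hs⟩, ⟨t, ht⟩⟩
      exact ⟨max s t, by simp [fm a s _ (le_max_left _ _) hs, gm a t _ (le_max_right _ _) ht]⟩
    · rintro ⟨s, hs⟩
      simp only [Bool.and_eq_true] at hs
      exact ⟨⟨s, hs.1⟩, ⟨s, hs.2⟩⟩

theorem RE_or {p q : α → Prop} (hp : REPred p) (hq : REPred q) : REPred fun a => p a ∨ q a := by
  obtain ⟨f, hf, fm, hfp⟩ := RE_approx hp
  obtain ⟨g, hg, gm, hgq⟩ := RE_approx hq
  refine RE_iff.2 ⟨fun a s => f a s || g a s, Primrec.or.to_comp.comp hf hg, ?_, ?_⟩
  · intro a s t hst h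
    simp only [Bool.or_eq_true] at h ⊢
    exact h.imp (fm a s t hst) (gm a s t hst)
  · intro a
    rw [hfp, hgq]
    simp [exists_or]

theorem RE_exists {p : α → β → Prop} (hp : REPred fun x : α × β => p x.1 x.2) :
    REPred fun a => ∃ b, p a b := by
  obtain ⟨f, hf, fm, hfp⟩ := RE_approx hp
  have h1 : ComputablePred fun x : α × ℕ =>
      ∃ b ∈ (decode (α := β) x.2.unpair.1), f (x.1, b) x.2.unpair.2 = true := by
    have h2 : Computable fun x : α × ℕ =>
        ((decode (α := β) x.2.unpair.1).map (fun b => f (x.1, b) x.2.unpair.2)).getD false := by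
      refine Computable.option_getD ?_ (Computable.const _)
      refine Computable.option_map ?_ ?_
      · exact Computable.decode.comp (Computable.fst.comp (Computable.unpair.comp Computable.snd))
      · exact hf.comp (Computable.pair (Computable.fst.comp Computable.fst) Computable.snd)
          (Computable.snd.comp (Computable.unpair.comp (Computable.snd.comp Computable.fst)))
    refine (CP_bool h2).of_eq fun x => ?_
    cases hdec : (decode (α := β) x.2.unpair.1) with
    | none => simp
    | some b => simp
  refine (RE_of_exists (p := fun a n =>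
    ∃ b ∈ (decode (α := β) n.unpair.1), f (a, b) n.unpair.2 = true) h1).of_eq fun a => ?_
  constructor
  · rintro ⟨n, b, -, hb⟩
    exact ⟨b, (hfp (a, b)).2 ⟨_, hb⟩⟩
  · rintro ⟨b, hb⟩
    obtain ⟨s, hs⟩ := (hfp (a, b)).1 hb
    exact ⟨Nat.pair (encode b) s, b, by simp, by simpa using hs⟩

theorem RE_forall_lt {f : α → ℕ} {p : α → ℕ → Prop} (hf : Computable f)
    (hp : REPred fun x : α × ℕ => p x.1 x.2) :
    REPred fun a => ∀ i < f a, p a i := by
  obtain ⟨g, hg, gm, hgp⟩ := RE_approx hp
  have h1 : ComputablePred fun x : α × ℕ => ∀ i < f x.1, g (x.1, i) x.2 = true := by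
    refine CP_forall_lt (hf.comp Computable.fst) ?_
    refine CP_bool (hg.comp (Computable.pair (Computable.fst.comp Computable.fst) Computable.snd)
      (Computable.snd.comp Computable.fst))
  refine (RE_of_exists (p := fun a n => ∀ i < f a, g (a, i) n = true) h1).of_eq fun a => ?_
  constructor
  · rintro ⟨n, hn⟩ i hi
    exact (hgp (a, i)).2 ⟨n, hn i hi⟩
  · intro h
    have : ∀ i < f a, ∃ s, g (a, i) s = true := fun i hi => (hgp (a, i)).1 (h i hi)
    choose! s hs using this
    refine ⟨(Finset.range (f a)).sup s, fun i hi => gm _ _ _ ?_ (hs i hi)⟩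
    exact Finset.le_sup (f := s) (Finset.mem_range.2 hi)

theorem RE_forall_list {f : α → List β} {p : α → β → Prop} (hf : Computable f)
    (hp : REPred fun x : α × β => p x.1 x.2) :
    REPred fun a => ∀ b ∈ f a, p a b := by
  obtain ⟨g, hg, gm, hgp⟩ := RE_approx hp
  have h1 : ComputablePred fun x : α × ℕ => ∀ b ∈ f x.1, g (x.1, b) x.2 = true := by
    refine CP_forall_list (hf.comp Computable.fst) ?_
    refine CP_bool (hg.comp (Computable.pair (Computable.fst.comp Computable.fst) Computable.snd)
      (Computable.snd.comp Computable.fst))
  refine (RE_of_exists (p := fun a n => ∀ b ∈ f a, g (a, b) n = true) h1).of_eq fun a => ?_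
  constructor
  · rintro ⟨n, hn⟩ b hb
    exact (hgp (a, b)).2 ⟨n, hn b hb⟩
  · intro h
    have : ∀ l : List β, (∀ b ∈ l, p a b) → ∃ n, ∀ b ∈ l, g (a, b) n = true := by
      intro l
      induction l with
      | nil => intro _; exact ⟨0, by simp⟩
      | cons b l ih =>
        intro hl
        obtain ⟨n, hn⟩ := ih (fun c hc => hl c (List.mem_cons_of_mem _ hc))
        obtain ⟨m, hm⟩ := (hgp (a, b)).1 (hl b (by simp))
        refine ⟨max m n, fun c hc => ?_⟩
        rcases List.mem_cons.1 hc with rfl | hc
        · exact gm _ _ _ (le_max_left _ _) hm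
        · exact gm _ _ _ (le_max_right _ _) (hn c hc)
    exact this (f a) h

end Pool.Agent.OmegaTT
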