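import Mathlib

/-!
Definitions for the problem on Omega-numbers: binary sequences, left-c.e. reals,
Martin-Löf randomness, truth-table reducibility and strong weak truth-table reducibility.
-/

namespace Pool.Agent.OmegaTT

open MeasureTheory
open scoped ENNReal

/-- The list of the first `n` bits of the infinite binary sequence `X`. -/
def pre (X : ℕ → Bool) (n : ℕ) : List Bool := (List.range n).map X

/-- The real number in `[0,1]` whose binary expansion is `0.X(0)X(1)X(2)...`. -/
noncomputable def val (X : ℕ → Bool) : ℝ := ∑' n : ℕ, (if X n then (1 : ℝ) else 0) / 2 ^ (n + 1)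

/-- `X` is (the binary expansion of) a left-c.e. real: the set of (codes `(p, q)` of)
nonnegative rationals `p / (q + 1)` below the real is computably enumerable. -/
def LeftCE (X : ℕ → Bool) : Prop :=
  REPred fun r : ℕ × ℕ => (r.1 : ℝ) / ((r.2 : ℝ) + 1) < val X

/-- The basic open set of all infinite binary sequences extending the finite string `s`. -/
def Cyl (s : List Bool) : Set (ℕ → Bool) := {X | pre X s.length = s}

/-- The uniform (fair coin) probability measure on infinite binary sequences. -/
noncomputable def coin : Measure (ℕ → Bool) :=
  Measure.infinitePi fun _ : ℕ => (PMF.uniformOfFintype Bool).toMeasure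

/-- A Martin-Löf test, given as a uniformly c.e. sequence of sets of strings `U 0, U 1, ...`
whose generated open sets have measure `coin (⋃ s ∈ U k, Cyl s) ≤ 2 ^ (-k)`. -/
def IsMLTest (U : ℕ → List Bool → Prop) : Prop :=
  (REPred fun r : ℕ × List Bool => U r.1 r.2) ∧
    ∀ k : ℕ, coin (⋃ s ∈ {s : List Bool | U k s}, Cyl s) ≤ (2⁻¹ : ℝ≥0∞) ^ k

/-- `X` is Martin-Löf random: no Martin-Löf test captures it. -/
def MLRandom (X : ℕ → Bool) : Prop :=
  ∀ U : ℕ → List Bool → Prop, IsMLTest U → ∃ k : ℕ, X ∉ ⋃ s ∈ {s : List Bool | U k s}, Cyl s

/-- An `Ω`-number: a real which is both Martin-Löf random and left-c.e. -/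
def OmegaNumber (X : ℕ → Bool) : Prop := MLRandom X ∧ LeftCE X

/-- Truth-table reducibility: a total computable function `f` gives for each `n` a finite list
of positions and a Boolean function (the list of the bit patterns at which it is true), whose value
on the bits of `B` at those positions is `A n`. -/
def TTReducible (A B : ℕ → Bool) : Prop :=
  ∃ f : ℕ → List ℕ × List (List Bool), Computable f ∧
    ∀ n : ℕ, A n = true ↔ (f n).1.map B ∈ (f n).2

/-- Strong weak truth-table reducibility: there are a constant `c` and a partial computable
procedure which, for each `n`, computes `A n` from `n` and the bits of `B` at the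
positions `0, 1, ..., n + c`. -/
def SWReducible (A B : ℕ → Bool) : Prop :=
  ∃ (c : ℕ) (φ : ℕ × List Bool →. Bool), Partrec φ ∧ ∀ n : ℕ, A n ∈ φ (n, pre B (n + c + 1))

end Pool.Agent.OmegaTT
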