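import Mathlib
import Pool.Agent.Lib.MP_a2e505_lc.Defs
import Pool.Agent.Lib.MP_a2e505_lc.Comp

/-!
Finite binary strings, their numerical values, and initial segments of sequences.
-/

namespace Pool.Agent.OmegaTT

open MeasureTheory
open scoped ENNReal

/-! ### Initial segments -/

@[simp] theorem length_pre (X : ℕ → Bool) (n : ℕ) : (pre X n).length = n := by simp [pre]

@[simp] theorem pre_zero (X : ℕ → Bool) : pre X 0 = [] := by simp [pre]

theorem pre_succ (X : ℕ → Bool) (n : ℕ) : pre X (n + 1) = pre X n ++ [X n] := by
  simp [pre, List.range_succ]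

theorem pre_take (X : ℕ → Bool) {m n : ℕ} (h : m ≤ n) : (pre X n).take m = pre X m := by
  unfold pre
  rw [← List.map_take, List.take_range, min_eq_left h]

theorem pre_getD (X : ℕ → Bool) {i n : ℕ} (h : i < n) (d : Bool) : (pre X n).getD i d = X i := by
  simp [pre, List.getD, h]

theorem pre_eq_iff (X Y : ℕ → Bool) (n : ℕ) : pre X n = pre Y n ↔ ∀ i < n, X i = Y i := by
  constructor
  · intro h i hi
    rw [← pre_getD X hi false, h, pre_getD Y hi false]
  · intro h
    unfold pre
    apply List.map_congr_left
    intro i hi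
    exact h i (List.mem_range.1 hi)

theorem pre_eq_of_le {X Y : ℕ → Bool} {m n : ℕ} (h : m ≤ n) (e : pre X n = pre Y n) :
    pre X m = pre Y m := by
  rw [← pre_take X h, ← pre_take Y h, e]

/-- extend a finite string by zeros. -/
def ext (s : List Bool) : ℕ → Bool := fun i => s.getD i false

theorem pre_ext (s : List Bool) {n : ℕ} (h : n ≤ s.length) : pre (ext s) n = s.take n := by
  apply List.ext_getElem
  · simp [h]
  · intro i h1 h2
    simp only [length_pre] at h1
    simp [pre, ext, List.getD_eq_getElem?_getD, lt_of_lt_of_le h1 h]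

theorem pre_ext_length (s : List Bool) : pre (ext s) s.length = s := by
  rw [pre_ext s le_rfl, List.take_length]

theorem pre_ext_pre (X : ℕ → Bool) {m n : ℕ} (h : m ≤ n) : pre (ext (pre X n)) m = pre X m := by
  rw [pre_ext _ (by simpa using h), pre_take X h]

/-! ### Numbers and strings -/

/-- The natural number with binary expansion `s` (most significant bit first). -/
def num (s : List Bool) : ℕ := s.foldl (fun acc b => 2 * acc + b.toNat) 0

@[simp] theorem num_nil : num [] = 0 := rfl

theorem num_concat (s : List Bool) (b : Bool) : num (s ++ [b]) = 2 * num s + b.toNat := by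
  simp [num, List.foldl_append]

theorem num_lt (s : List Bool) : num s < 2 ^ s.length := by
  induction s using List.reverseRecOn with
  | nil => simp
  | append_singleton s b ih =>
    rw [num_concat, List.length_append, List.length_singleton, pow_succ]
    cases b <;> simp <;> omega

/-- The string of length `L` with numerical value `j mod 2^L`. -/
def bits (L j : ℕ) : List Bool := (List.range L).map fun i => decide ((j / 2 ^ (L - 1 - i)) % 2 = 1)

@[simp] theorem length_bits (L j : ℕ) : (bits L j).length = L := by simp [bits]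

@[simp] theorem bits_zero (j : ℕ) : bits 0 j = [] := by simp [bits]

theorem bits_succ (L j : ℕ) : bits (L + 1) j = bits L (j / 2) ++ [decide (j % 2 = 1)] := by
  unfold bits
  rw [List.range_succ, List.map_append]
  congr 1
  · apply List.map_congr_left
    intro i hi
    have hi' := List.mem_range.1 hi
    have : L + 1 - 1 - i = (L - 1 - i) + 1 := by omega
    rw [this, pow_succ', Nat.div_div_eq_div_mul]
  · simp

theorem num_bits {L j : ℕ} (h : j < 2 ^ L) : num (bits L j) = j := by
  induction L generalizing j with
  | zero => simp at h; simp [h]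
  | succ L ih =>
    rw [bits_succ, num_concat, ih (by rw [pow_succ] at h; omega)]
    by_cases hj : j % 2 = 1
    · simp [hj]; omega
    · simp [hj]; omega

theorem bits_num (s : List Bool) : bits s.length (num s) = s := by
  induction s using List.reverseRecOn with
  | nil => simp
  | append_singleton s b ih =>
    rw [List.length_append, List.length_singleton, bits_succ, num_concat]
    congr 1
    · rw [show (2 * num s + b.toNat) / 2 = num s by cases b <;> simp <;> omega, ih]
    · cases b <;> simp

theorem bits_injOn {L i j : ℕ} (hi : i < 2 ^ L) (hj : j < 2 ^ L) (h : bits L i = bits L j) :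
    i = j := by
  rw [← num_bits hi, ← num_bits hj, h]

theorem num_inj {s t : List Bool} (hl : s.length = t.length) (h : num s = num t) : s = t := by
  rw [← bits_num s, ← bits_num t, hl, h]

theorem num_take (s : List Bool) {m : ℕ} (h : m ≤ s.length) :
    num (s.take m) = num s / 2 ^ (s.length - m) := by
  induction s using List.reverseRecOn with
  | nil => simp at h; simp [h]
  | append_singleton s b ih =>
    rw [List.length_append, List.length_singleton] at h ⊢
    rcases Nat.lt_or_ge s.length m with h1 | h1
    · have : m = s.length + 1 := by omega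
      subst this
      rw [List.take_of_length_le (by simp)]
      simp
    · rw [List.take_append_of_le_length h1, ih h1, num_concat]
      have e : s.length + 1 - m = (s.length - m) + 1 := by omega
      rw [e, pow_succ', ← Nat.div_div_eq_div_mul]
      congr 1
      cases b <;> simp <;> omega

theorem num_append (s t : List Bool) : num (s ++ t) = num s * 2 ^ t.length + num t := by
  induction t using List.reverseRecOn with
  | nil => simp
  | append_singleton t b ih =>
    rw [← List.append_assoc, num_concat, ih, num_concat, List.length_append, List.length_singleton,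
      pow_succ]
    ring

/-! ### Computability -/

theorem comp_pow2 : Primrec fun n : ℕ => 2 ^ n := by
  have : Primrec fun n : ℕ => (Nat.rec 1 (fun _ acc => 2 * acc) n : ℕ) :=
    Primrec.nat_rec' (f := fun n : ℕ => n) (g := fun _ => 1) (h := fun _ (p : ℕ × ℕ) => 2 * p.2)
      Primrec.id (Primrec.const 1)
      (Primrec.nat_mul.comp (Primrec.const 2) (Primrec.snd.comp Primrec.snd))
  refine this.of_eq fun n => ?_
  induction n with
  | zero => rfl
  | succ n ih => rw [pow_succ', ← ih]

theorem primrec_bits : Primrec₂ bits := by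
  unfold bits
  refine Primrec.list_map (Primrec.list_range.comp Primrec.fst) ?_
  have h1 : Primrec fun x : (ℕ × ℕ) × ℕ => (x.1.2 / 2 ^ (x.1.1 - 1 - x.2)) % 2 := by
    refine Primrec.nat_mod.comp (Primrec.nat_div.comp (Primrec.snd.comp Primrec.fst) ?_)
      (Primrec.const 2)
    refine comp_pow2.comp ?_
    exact Primrec.nat_sub.comp (Primrec.nat_sub.comp (Primrec.fst.comp Primrec.fst)
      (Primrec.const 1)) Primrec.snd
  have h2 : PrimrecPred fun x : (ℕ × ℕ) × ℕ => (x.1.2 / 2 ^ (x.1.1 - 1 - x.2)) % 2 = 1 :=
    Primrec.eq.comp h1 (Primrec.const 1)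
  exact h2.decide

theorem comp_bits : Computable₂ bits := primrec_bits.to_comp

theorem primrec_num : Primrec num := by
  unfold num
  refine Primrec.list_foldl (h := fun _ (p : ℕ × Bool) => 2 * p.1 + p.2.toNat) Primrec.id
    (Primrec.const 0) ?_
  refine Primrec.nat_add.comp (Primrec.nat_mul.comp (Primrec.const 2)
    (Primrec.fst.comp Primrec.snd)) ?_
  have : Primrec Bool.toNat := Primrec.dom_finite _
  exact this.comp (Primrec.snd.comp Primrec.snd)

theorem comp_num : Computable num := primrec_num.to_comp

theorem comp_take : Computable₂ (List.take : ℕ → List Bool → List Bool) :=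
  Primrec.list_take.to_comp

theorem comp_nat_add {α : Type*} [Primcodable α] {f g : α → ℕ} (hf : Computable f)
    (hg : Computable g) : Computable fun a => f a + g a := Primrec.nat_add.to_comp.comp hf hg

theorem comp_nat_mul {α : Type*} [Primcodable α] {f g : α → ℕ} (hf : Computable f)
    (hg : Computable g) : Computable fun a => f a * g a := Primrec.nat_mul.to_comp.comp hf hg

theorem comp_nat_sub {α : Type*} [Primcodable α] {f g : α → ℕ} (hf : Computable f)
    (hg : Computable g) : Computable fun a => f a - g a := Primrec.nat_sub.to_comp.comp hf hg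

theorem comp_nat_div {α : Type*} [Primcodable α] {f g : α → ℕ} (hf : Computable f)
    (hg : Computable g) : Computable fun a => f a / g a := Primrec.nat_div.to_comp.comp hf hg

theorem comp_nat_mod {α : Type*} [Primcodable α] {f g : α → ℕ} (hf : Computable f)
    (hg : Computable g) : Computable fun a => f a % g a := Primrec.nat_mod.to_comp.comp hf hg

/-! ### Counting strings and the coin measure -/

open Classical in
/-- number of strings of length `L` with property `P`. -/
noncomputable def cnt (L : ℕ) (P : List Bool → Prop) : ℕ :=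
  ((Finset.range (2 ^ L)).filter fun j => P (bits L j)).card

theorem cnt_eq_list {L : ℕ} {P : List Bool → Prop} {p : List Bool → Bool}
    (h : ∀ j < 2 ^ L, (P (bits L j) ↔ p (bits L j) = true)) :
    cnt L P = ((List.range (2 ^ L)).filter fun j => p (bits L j)).length := by
  classical
  unfold cnt
  rw [Finset.filter_congr (q := fun j => p (bits L j) = true)
    (fun j hj => h j (Finset.mem_range.1 hj))]
  rw [← List.toFinset_card_of_nodup (List.Nodup.filter _ List.nodup_range)]
  congr 1
  ext j
  simp

theorem coin_half (b : Bool) : (PMF.uniformOfFintype Bool).toMeasure {b} = 2⁻¹ := by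
  rw [PMF.toMeasure_apply_singleton _ _ (measurableSet_singleton b)]
  simp [PMF.uniformOfFintype_apply]

instance : IsProbabilityMeasure coin := by
  unfold coin; infer_instance

theorem Cyl_eq_pi (s : List Bool) :
    Cyl s = Set.pi (Finset.range s.length : Set ℕ) fun i => {s.getD i false} := by
  ext X
  simp only [Cyl, Set.mem_ofPred_eq, Set.mem_pi, Finset.coe_range, Set.mem_Iio,
    Set.mem_singleton_iff]
  constructor
  · intro h i hi
    rw [← h, pre_getD X hi]
  · intro h
    have h2 : pre X s.length = pre (ext s) s.length := (pre_eq_iff _ _ _).2 fun i hi => h i hi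
    rw [h2, pre_ext_length]

theorem measurableSet_Cyl (s : List Bool) : MeasurableSet (Cyl s) := by
  rw [Cyl_eq_pi]
  exact MeasurableSet.pi (Set.to_countable _) fun i _ => measurableSet_singleton _

theorem coin_Cyl (s : List Bool) : coin (Cyl s) = (2⁻¹ : ℝ≥0∞) ^ s.length := by
  rw [Cyl_eq_pi]
  unfold coin
  rw [Measure.infinitePi_pi _ (fun i _ => measurableSet_singleton _)]
  simp [coin_half]

theorem mem_Cyl {X : ℕ → Bool} {s : List Bool} : X ∈ Cyl s ↔ pre X s.length = s := Iff.rfl

theorem level_eq_iUnion (L : ℕ) (P : List Bool → Prop) [DecidablePred P] :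
    {X : ℕ → Bool | P (pre X L)} =
      ⋃ j ∈ (Finset.range (2 ^ L)).filter (fun j => P (bits L j)), Cyl (bits L j) := by
  ext X
  simp only [Set.mem_ofPred_eq, Set.mem_iUnion, Finset.mem_filter, Finset.mem_range, mem_Cyl,
    length_bits, exists_prop]
  constructor
  · intro h
    refine ⟨num (pre X L), ⟨by simpa using num_lt (pre X L), ?_⟩, ?_⟩
    · have := bits_num (pre X L)
      rw [length_pre] at this
      rw [this]; exact h
    · have := bits_num (pre X L)
      rw [length_pre] at this
      exact this.symm
  · rintro ⟨j, ⟨-, hj⟩, h⟩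
    rw [h]; exact hj

theorem coin_level (L : ℕ) (P : List Bool → Prop) :
    coin {X | P (pre X L)} = (cnt L P : ℝ≥0∞) * (2⁻¹ : ℝ≥0∞) ^ L := by
  classical
  rw [level_eq_iUnion, measure_biUnion_finset]
  · simp only [coin_Cyl, length_bits, Finset.sum_const, nsmul_eq_mul]
    congr 2
  · intro i hi j hj hij
    simp only [Finset.coe_filter, Finset.mem_range, Set.mem_ofPred_eq] at hi hj
    refine Set.disjoint_left.2 fun X hX hX' => hij ?_
    simp only [mem_Cyl, length_bits] at hX hX'
    exact bits_injOn hi.1 hj.1 (hX.symm.trans hX')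
  · intro j _; exact measurableSet_Cyl _

theorem measurableSet_level (L : ℕ) (P : List Bool → Prop) :
    MeasurableSet {X : ℕ → Bool | P (pre X L)} := by
  classical
  rw [level_eq_iUnion]
  exact Finset.measurableSet_biUnion _ fun j _ => measurableSet_Cyl _

/-- the open set generated by a set of strings -/
def Opn (S : List Bool → Prop) : Set (ℕ → Bool) := ⋃ s ∈ {s : List Bool | S s}, Cyl s

theorem mem_Opn {S : List Bool → Prop} {X : ℕ → Bool} :
    X ∈ Opn S ↔ ∃ s, S s ∧ pre X s.length = s := by
  simp [Opn, mem_Cyl]

/-- the string `t` extends an element of `S`. -/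
def Cov (S : List Bool → Prop) (t : List Bool) : Prop := ∃ s, S s ∧ s <+: t

theorem pre_prefix (X : ℕ → Bool) {m n : ℕ} (h : m ≤ n) : pre X m <+: pre X n := by
  rw [← pre_take X h]; exact List.take_prefix _ _

theorem prefix_pre_iff (X : ℕ → Bool) (s : List Bool) (n : ℕ) :
    s <+: pre X n ↔ s.length ≤ n ∧ pre X s.length = s := by
  constructor
  · intro h
    have h1 : s.length ≤ n := by simpa using h.length_le
    refine ⟨h1, ?_⟩
    rw [← pre_take X h1]
    exact (List.prefix_iff_eq_take.1 h).symm
  · rintro ⟨h1, h2⟩
    rw [← h2]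
    exact pre_prefix X h1

theorem mem_Opn_iff_Cov {S : List Bool → Prop} {X : ℕ → Bool} :
    X ∈ Opn S ↔ ∃ L, Cov S (pre X L) := by
  rw [mem_Opn]
  constructor
  · rintro ⟨s, hs, h⟩
    exact ⟨s.length, s, hs, (prefix_pre_iff X s _).2 ⟨le_rfl, h⟩⟩
  · rintro ⟨L, s, hs, h⟩
    exact ⟨s, hs, ((prefix_pre_iff X s _).1 h).2⟩

theorem coin_Opn (S : List Bool → Prop) :
    coin (Opn S) = ⨆ L, (cnt L (Cov S) : ℝ≥0∞) * (2⁻¹ : ℝ≥0∞) ^ L := by
  have h1 : Opn S = ⋃ L, {X | Cov S (pre X L)} := by
    ext X
    rw [mem_Opn_iff_Cov]
    simp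
  have h2 : Monotone fun L => {X : ℕ → Bool | Cov S (pre X L)} := by
    intro L M hLM X hX
    obtain ⟨s, hs, h⟩ := hX
    exact ⟨s, hs, h.trans (pre_prefix X hLM)⟩
  rw [h1, h2.measure_iUnion]
  simp only [coin_level]

theorem ennreal_half_pow_le {a L k : ℕ} :
    (a : ℝ≥0∞) * (2⁻¹ : ℝ≥0∞) ^ L ≤ (2⁻¹ : ℝ≥0∞) ^ k ↔ a * 2 ^ k ≤ 2 ^ L := by
  rw [← ENNReal.inv_pow, ← ENNReal.inv_pow, ← div_eq_mul_inv]
  rw [ENNReal.div_le_iff (by positivity) (by simp)]
  rw [mul_comm, ← div_eq_mul_inv, ENNReal.le_div_iff_mul_le (by simp) (by simp)]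
  rw [← Nat.cast_ofNat (R := ℝ≥0∞), ← Nat.cast_pow, ← Nat.cast_pow, ← Nat.cast_mul]
  exact Nat.cast_le

theorem coin_Opn_le_iff (S : List Bool → Prop) (k : ℕ) :
    coin (Opn S) ≤ (2⁻¹ : ℝ≥0∞) ^ k ↔ ∀ L, cnt L (Cov S) * 2 ^ k ≤ 2 ^ L := by
  rw [coin_Opn, iSup_le_iff]
  simp only [ennreal_half_pow_le]

end Pool.Agent.OmegaTT
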