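import Mathlib
import Pool.Agent.Lib.MP_a2e505_lc.Strings

/-!
The chain lemma: the measure-theoretic heart of both results.
-/

namespace Pool.Agent.OmegaTT

open MeasureTheory
open scoped ENNReal

/-- Data for the chain lemma. -/
structure ChainData where
  /-- observation of `X` at level `n` -/
  A : ℕ → (ℕ → Bool) → List Bool
  /-- use bound -/
  U : ℕ → ℕ
  /-- decoding relation -/
  G : ℕ → List Bool → List Bool → Prop
  n0 : ℕ
  p : ℕ
  q : ℕ
  hU : Computable U
  hUn : ∀ n, n ≤ U n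
  hAc : Computable₂ fun n τ => A n (ext τ)
  hA1 : ∀ n X Y, pre X (U n) = pre Y (U n) → A n X = A n Y
  hA2 : ∀ j n X Y, j ≤ n → A n X = A n Y → A j X = A j Y
  hGre : REPred fun r : ℕ × List Bool × List Bool => G r.1 r.2.1 r.2.2
  hGs : ∀ n a s s', G n a s → G n a s' → s = s'

namespace ChainData

variable (D : ChainData)

/-- weight: number of strings of length `U n` with observation `a` at level `n` and
first `j` bits `s` -/
noncomputable def W (n j : ℕ) (a s : List Bool) : ℕ :=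
  cnt (D.U n) fun τ => D.A n (ext τ) = a ∧ τ.take j = s

/-- the set of sequences with observation `a` at level `n` and first `j` bits `s` -/
def H (n j : ℕ) (a s : List Bool) : Set (ℕ → Bool) := {Z | D.A n Z = a ∧ pre Z j = s}

theorem H_eq {n j : ℕ} (hj : j ≤ n) (a s : List Bool) :
    D.H n j a s = {Z | (fun τ => D.A n (ext τ) = a ∧ τ.take j = s) (pre Z (D.U n))} := by
  ext Z
  simp only [H, Set.mem_ofPred_eq]
  have h1 : D.A n (ext (pre Z (D.U n))) = D.A n Z :=
    D.hA1 n _ _ (pre_ext_pre Z le_rfl)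
  rw [h1, pre_take Z (hj.trans (D.hUn n))]

theorem coin_H {n j : ℕ} (hj : j ≤ n) (a s : List Bool) :
    coin (D.H n j a s) = (D.W n j a s : ℝ≥0∞) * (2⁻¹ : ℝ≥0∞) ^ D.U n := by
  rw [D.H_eq hj]
  exact coin_level (D.U n) (fun τ => D.A n (ext τ) = a ∧ τ.take j = s)

theorem measurableSet_H {n j : ℕ} (hj : j ≤ n) (a s : List Bool) :
    MeasurableSet (D.H n j a s) := by
  rw [D.H_eq hj]
  exact measurableSet_level (D.U n) (fun τ => D.A n (ext τ) = a ∧ τ.take j = s)

/-- chain counter and last chain point -/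
noncomputable def kc : ℕ → (ℕ → Bool) → ℕ × ℕ
  | 0, _ => (0, D.n0)
  | n + 1, X =>
    if D.n0 < n + 1 ∧ D.q * D.W (n + 1) (n + 1) (D.A (n + 1) X) (pre X (n + 1)) ≤
        D.p * D.W (n + 1) (kc n X).2 (D.A (n + 1) X) (pre X (kc n X).2) then
      ((kc n X).1 + 1, n + 1)
    else kc n X

theorem kc_succ (n : ℕ) (X : ℕ → Bool) : D.kc (n + 1) X =
    if D.n0 < n + 1 ∧ D.q * D.W (n + 1) (n + 1) (D.A (n + 1) X) (pre X (n + 1)) ≤
        D.p * D.W (n + 1) (D.kc n X).2 (D.A (n + 1) X) (pre X (D.kc n X).2) then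
      ((D.kc n X).1 + 1, n + 1)
    else D.kc n X := rfl

theorem kc_le_n0 {n : ℕ} (h : n ≤ D.n0) (X : ℕ → Bool) : D.kc n X = (0, D.n0) := by
  induction n with
  | zero => rfl
  | succ n ih =>
    rw [kc_succ, if_neg (by omega), ih (by omega)]

theorem n0_le_kc (n : ℕ) (X : ℕ → Bool) : D.n0 ≤ (D.kc n X).2 := by
  induction n with
  | zero => exact le_rfl
  | succ n ih =>
    rw [kc_succ]
    split_ifs with h
    · exact h.1.le
    · exact ih

theorem kc_le {n : ℕ} (h : D.n0 ≤ n) (X : ℕ → Bool) : (D.kc n X).2 ≤ n := by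
  induction n, h using Nat.le_induction with
  | base => rw [D.kc_le_n0 le_rfl]
  | succ n hn ih =>
    rw [kc_succ]
    split_ifs with h
    · exact le_rfl
    · exact ih.trans (Nat.le_succ n)

theorem kc_mono_fst (X : ℕ → Bool) : Monotone fun n => (D.kc n X).1 := by
  refine monotone_nat_of_le_succ fun n => ?_
  simp only [kc_succ]
  split_ifs with h
  · exact Nat.le_succ _
  · exact le_rfl

theorem kc_idem {n : ℕ} (h : D.n0 ≤ n) (X : ℕ → Bool) : D.kc (D.kc n X).2 X = D.kc n X := by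
  induction n, h using Nat.le_induction with
  | base => rw [D.kc_le_n0 le_rfl]; exact D.kc_le_n0 le_rfl X
  | succ n hn ih =>
    have h2 := D.kc_succ n X
    split_ifs at h2 with h
    · rw [h2]; simp only; rw [h2]
    · rw [h2]; exact ih

theorem kc_congr {n : ℕ} {X Y : ℕ → Bool} (hA : D.A n X = D.A n Y) (hp : pre X n = pre Y n) :
    D.kc n X = D.kc n Y := by
  have key : ∀ m ≤ n, D.kc m X = D.kc m Y := by
    intro m hm
    induction m with
    | zero => rfl
    | succ m ih =>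
      have ih' := ih (by omega)
      rw [kc_succ, kc_succ, D.hA2 (m + 1) n X Y hm hA, ih', pre_eq_of_le hm hp]
      by_cases h0 : D.n0 < m + 1
      · have h1 : (D.kc m Y).2 ≤ n := (D.kc_le (by omega) Y).trans (by omega)
        rw [pre_eq_of_le h1 hp]
      · simp [h0]
  exact key n le_rfl

/-- validity up to level `n` -/
def valid (n : ℕ) (X : ℕ → Bool) : Prop :=
  ∀ j, D.n0 ≤ j → j ≤ n → D.G j (D.A j X) (pre X j)

theorem valid_mono {m n : ℕ} (h : m ≤ n) {X : ℕ → Bool} (hv : D.valid n X) : D.valid m X :=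
  fun j h0 hj => hv j h0 (hj.trans h)

theorem valid_congr {n : ℕ} {X Y : ℕ → Bool} (hA : D.A n X = D.A n Y) (hp : pre X n = pre Y n)
    (hv : D.valid n X) : D.valid n Y := by
  intro j h0 hj
  rw [← D.hA2 j n X Y hj hA, ← pre_eq_of_le hj hp]
  exact hv j h0 hj

/-- the set of sequences with at least `k` chain points -/
def GG (k : ℕ) : Set (ℕ → Bool) := {X | ∃ n, D.n0 ≤ n ∧ D.valid n X ∧ k ≤ (D.kc n X).1}

theorem first_spec {k : ℕ} {X : ℕ → Bool} (h : X ∈ D.GG (k + 1)) :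
    ∃ n, D.n0 < n ∧ D.valid n X ∧ (D.kc n X) = (k + 1, n) ∧ (D.kc (n - 1) X).1 = k ∧
      D.q * D.W n n (D.A n X) (pre X n) ≤
        D.p * D.W n (D.kc (n - 1) X).2 (D.A n X) (pre X (D.kc (n - 1) X).2) ∧
      ∀ m, D.n0 ≤ m → m < n → D.valid m X → (D.kc m X).1 ≤ k := by
  classical
  have hex : ∃ n, D.n0 ≤ n ∧ D.valid n X ∧ k + 1 ≤ (D.kc n X).1 := h
  obtain ⟨h0, hv, hk⟩ := Nat.find_spec hex
  have hmin := fun m (hm : m < Nat.find hex) => Nat.find_min hex hm
  generalize Nat.find hex = n at h0 hv hk hmin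
  have hn0 : D.n0 < n := by
    rcases Nat.lt_or_ge D.n0 n with h1 | h1
    · exact h1
    · rw [D.kc_le_n0 h1] at hk
      simp at hk
  have hmin' : ∀ m, D.n0 ≤ m → m < n → D.valid m X → (D.kc m X).1 ≤ k := by
    intro m h1 h2 h3
    by_contra hc
    exact hmin m h2 ⟨h1, h3, by omega⟩
  obtain ⟨n', rfl⟩ : ∃ n', n = n' + 1 := ⟨n - 1, by omega⟩
  have h4 := hmin' n' (by omega) (by omega) (D.valid_mono (by omega) hv)
  have h5 := D.kc_succ n' X
  refine ⟨n' + 1, hn0, hv, ?_⟩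
  simp only [Nat.add_sub_cancel]
  split_ifs at h5 with h6
  · have h7 : (D.kc n' X).1 = k := by
      rw [h5] at hk; simp only at hk; omega
    refine ⟨by rw [h5, h7], h7, h6.2, hmin'⟩
  · rw [h5] at hk; omega

theorem GG_step (k : ℕ) : (D.q : ℝ≥0∞) * coin (D.GG (k + 1)) ≤ D.p * coin (D.GG k) := by
  classical
  -- choose first stage
  choose! N hN0 hNv hNk hNk' hNW hNmin using fun X (h : X ∈ D.GG (k + 1)) => D.first_spec h
  -- index set
  let code : (ℕ → Bool) → ℕ × List Bool := fun X => (N X, D.A (N X) X)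
  let C : Set (ℕ × List Bool) := code '' D.GG (k + 1)
  have hCc : C.Countable := Set.to_countable _
  have hrep : ∀ i ∈ C, ∃ X ∈ D.GG (k + 1), code X = i := fun i hi => hi
  choose! R hRG hRc using hrep
  let H' : ℕ × List Bool → Set (ℕ → Bool) := fun i =>
    D.H (N (R i)) (N (R i)) (D.A (N (R i)) (R i)) (pre (R i) (N (R i)))
  let HH : ℕ × List Bool → Set (ℕ → Bool) := fun i =>
    D.H (N (R i)) (D.kc (N (R i) - 1) (R i)).2 (D.A (N (R i)) (R i))
      (pre (R i) (D.kc (N (R i) - 1) (R i)).2)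
  have hn' : ∀ X ∈ D.GG (k + 1), (D.kc (N X - 1) X).2 ≤ N X - 1 := fun X hX =>
    D.kc_le (by have := hN0 X hX; omega) X
  -- same code implies same prefix
  have hsame : ∀ X ∈ D.GG (k + 1), ∀ Y ∈ D.GG (k + 1), ∀ n, n ≤ N X → n ≤ N Y → D.n0 ≤ n →
      D.A n X = D.A n Y → pre X n = pre Y n := by
    intro X hX Y hY n hnX hnY hn hA
    have h1 := hNv X hX n hn hnX
    have h2 := hNv Y hY n hn hnY
    rw [hA] at h1
    exact D.hGs _ _ _ _ h1 h2
  have hcover : D.GG (k + 1) ⊆ ⋃ i ∈ C, H' i := by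
    intro X hX
    refine Set.mem_biUnion (x := code X) ⟨X, hX, rfl⟩ ?_
    have hi : code X ∈ C := ⟨X, hX, rfl⟩
    have h1 := hRG _ hi
    have h2 := hRc _ hi
    set Y := R (code X) with hY
    have h3 : N Y = N X := congrArg Prod.fst h2
    have h4 : D.A (N Y) Y = D.A (N X) X := congrArg Prod.snd h2
    have h5 : pre X (N X) = pre Y (N Y) := by
      rw [h3]
      refine hsame X hX Y h1 _ le_rfl h3.ge (hN0 X hX).le ?_
      rw [← h4, h3]
    change X ∈ D.H (N Y) (N Y) (D.A (N Y) Y) (pre Y (N Y))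
    refine ⟨?_, ?_⟩
    · rw [h4, h3]
    · rw [← h5, h3]
  have hmeas : ∀ i ∈ C, MeasurableSet (HH i) := fun i hi =>
    D.measurableSet_H ((hn' _ (hRG i hi)).trans (Nat.sub_le _ _)) _ _
  have hle : ∀ i ∈ C, (D.q : ℝ≥0∞) * coin (H' i) ≤ D.p * coin (HH i) := by
    intro i hi
    have h1 := hRG _ hi
    change (D.q : ℝ≥0∞) * coin (D.H _ _ _ _) ≤ D.p * coin (D.H _ _ _ _)
    rw [D.coin_H le_rfl, D.coin_H ((hn' _ h1).trans (Nat.sub_le _ _)), ← mul_assoc, ← mul_assoc]
    have h2 := hNW _ h1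
    refine mul_le_mul_left ?_ _
    exact_mod_cast h2
  have hdisj : C.PairwiseDisjoint HH := by
    -- auxiliary one-sided statement
    have aux : ∀ X ∈ D.GG (k + 1), ∀ Y ∈ D.GG (k + 1), N X < N Y → ∀ Z,
        D.A (N X) Z = D.A (N X) X → D.A (N Y) Z = D.A (N Y) Y → False := by
      intro X hX Y hY hlt Z h1 h2
      have h3 : D.A (N X) Y = D.A (N X) X := by
        rw [← h1]; exact (D.hA2 _ _ _ _ hlt.le h2).symm
      have h4 : pre X (N X) = pre Y (N X) :=
        hsame X hX Y hY _ le_rfl hlt.le (hN0 X hX).le h3.symm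
      have h5 : D.kc (N X) X = D.kc (N X) Y := D.kc_congr h3.symm h4
      have h6 := hNmin Y hY (N X) (hN0 X hX).le hlt (D.valid_mono hlt.le (hNv Y hY))
      rw [← h5, hNk X hX] at h6
      simp at h6
    intro i hi j hj hij
    refine Set.disjoint_left.2 fun Z hZi hZj => hij ?_
    have h1 := hRG _ hi
    have h2 := hRG _ hj
    have e1 : D.A (N (R i)) Z = D.A (N (R i)) (R i) := hZi.1
    have e2 : D.A (N (R j)) Z = D.A (N (R j)) (R j) := hZj.1
    rcases lt_trichotomy (N (R i)) (N (R j)) with h | h | h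
    · exact (aux _ h1 _ h2 h Z e1 e2).elim
    · rw [← hRc i hi, ← hRc j hj]
      change (N (R i), D.A (N (R i)) (R i)) = (N (R j), D.A (N (R j)) (R j))
      rw [← e1, ← e2, h]
    · exact (aux _ h2 _ h1 h Z e2 e1).elim
  have hsub : (⋃ i ∈ C, HH i) ⊆ D.GG k := by
    intro Z hZ
    simp only [Set.mem_iUnion] at hZ
    obtain ⟨i, hi, hZ⟩ := hZ
    have h1 := hRG _ hi
    set X := R i with hX
    have hZA : D.A (N X) Z = D.A (N X) X := hZ.1
    have hZp : pre Z (D.kc (N X - 1) X).2 = pre X (D.kc (N X - 1) X).2 := hZ.2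
    have hle1 := hn' X h1
    have hN := hN0 X h1
    set n' := (D.kc (N X - 1) X).2 with hn'def
    have hA' : D.A n' X = D.A n' Z := (D.hA2 n' (N X) Z X (by omega) hZA).symm
    refine ⟨n', D.n0_le_kc _ _, ?_, ?_⟩
    · exact D.valid_congr hA' hZp.symm (D.valid_mono (by omega) (hNv X h1))
    · rw [← D.kc_congr hA' hZp.symm, hn'def, D.kc_idem (by omega) X, hNk' X h1]
  calc (D.q : ℝ≥0∞) * coin (D.GG (k + 1)) ≤ D.q * coin (⋃ i ∈ C, H' i) := by gcongr
    _ ≤ D.q * ∑' i : C, coin (H' i) := by gcongr; exact measure_biUnion_le _ hCc _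
    _ = ∑' i : C, D.q * coin (H' i) := ENNReal.tsum_mul_left.symm
    _ ≤ ∑' i : C, D.p * coin (HH i) := ENNReal.tsum_le_tsum fun i => hle i i.2
    _ = D.p * ∑' i : C, coin (HH i) := ENNReal.tsum_mul_left
    _ = D.p * coin (⋃ i ∈ C, HH i) := by rw [measure_biUnion hCc hdisj hmeas]
    _ ≤ D.p * coin (D.GG k) := by gcongr

theorem GG_bound (k : ℕ) : (D.q : ℝ≥0∞) ^ k * coin (D.GG k) ≤ (D.p : ℝ≥0∞) ^ k := by
  induction k with
  | zero => simpa using prob_le_one
  | succ k ih =>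
    calc (D.q : ℝ≥0∞) ^ (k + 1) * coin (D.GG (k + 1))
        = (D.q : ℝ≥0∞) ^ k * (D.q * coin (D.GG (k + 1))) := by rw [pow_succ]; ring
      _ ≤ (D.q : ℝ≥0∞) ^ k * (D.p * coin (D.GG k)) := mul_le_mul_right (D.GG_step k) _
      _ = D.p * ((D.q : ℝ≥0∞) ^ k * coin (D.GG k)) := by ring
      _ ≤ D.p * (D.p : ℝ≥0∞) ^ k := by gcongr
      _ = (D.p : ℝ≥0∞) ^ (k + 1) := by rw [pow_succ]; ring

end ChainData

end Pool.Agent.OmegaTT
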