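import Mathlib
import Pool.Agent.Lib.MP_a2e505_lc.Chain

/-!
The chain lemma: computability part and conclusion.
-/

namespace Pool.Agent.OmegaTT

open MeasureTheory
open scoped ENNReal

theorem comp_pre_ext : Computable₂ fun (s : List Bool) (n : ℕ) => pre (ext s) n := by
  have h : Primrec fun x : List Bool × ℕ => (List.range x.2).map (fun i => x.1.getD i false) := by
    refine Primrec.list_map (Primrec.list_range.comp Primrec.snd) ?_
    exact (Primrec.list_getD false).comp (Primrec.fst.comp Primrec.fst) Primrec.snd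
  exact h.to_comp

namespace ChainData

variable (D : ChainData)

theorem comp_W : Computable fun x : (ℕ × ℕ) × (List Bool × List Bool) =>
    D.W x.1.1 x.1.2 x.2.1 x.2.2 := by
  classical
  have h1 : ComputablePred fun y : ((ℕ × ℕ) × (List Bool × List Bool)) × ℕ =>
      D.A y.1.1.1 (ext (bits (D.U y.1.1.1) y.2)) = y.1.2.1 ∧
        (bits (D.U y.1.1.1) y.2).take y.1.1.2 = y.1.2.2 := by
    have hn : Computable fun y : ((ℕ × ℕ) × (List Bool × List Bool)) × ℕ => y.1.1.1 :=
      Computable.fst.comp (Computable.fst.comp Computable.fst)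
    have hj : Computable fun y : ((ℕ × ℕ) × (List Bool × List Bool)) × ℕ => y.1.1.2 :=
      Computable.snd.comp (Computable.fst.comp Computable.fst)
    have hb : Computable fun y : ((ℕ × ℕ) × (List Bool × List Bool)) × ℕ =>
        bits (D.U y.1.1.1) y.2 := comp_bits.comp (D.hU.comp hn) Computable.snd
    refine CP_and (CP_eq ?_ ?_) (CP_eq ?_ ?_)
    · exact D.hAc.comp hn hb
    · exact Computable.fst.comp (Computable.snd.comp Computable.fst)
    · exact comp_take.comp hj hb
    · exact Computable.snd.comp (Computable.snd.comp Computable.fst)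
  have h2 : Computable fun x : (ℕ × ℕ) × (List Bool × List Bool) =>
      ((List.range (2 ^ D.U x.1.1)).filter fun i =>
        decide (D.A x.1.1 (ext (bits (D.U x.1.1) i)) = x.2.1 ∧
          (bits (D.U x.1.1) i).take x.1.2 = x.2.2)).length := by
    refine Computable.list_length.comp (comp_list_filter ?_ ?_)
    · exact comp_list_range (comp_pow2.to_comp.comp (D.hU.comp
        (Computable.fst.comp Computable.fst)))
    · exact h1.decide
  refine h2.of_eq fun x => ?_
  symm
  exact cnt_eq_list (p := fun τ => decide (D.A x.1.1 (ext τ) = x.2.1 ∧ τ.take x.1.2 = x.2.2))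
    (fun j _ => by simp)

theorem comp_W' {α : Type*} [Primcodable α] {f g : α → ℕ} {a s : α → List Bool}
    (hf : Computable f) (hg : Computable g) (ha : Computable a) (hs : Computable s) :
    Computable fun x => D.W (f x) (g x) (a x) (s x) :=
  D.comp_W.comp ((hf.pair hg).pair (ha.pair hs))

theorem comp_pre_ext' {α : Type*} [Primcodable α] {f : α → ℕ} {s : α → List Bool}
    (hf : Computable f) (hs : Computable s) : Computable fun x => pre (ext (s x)) (f x) :=
  comp_pre_ext.comp hs hf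

theorem comp_A' {α : Type*} [Primcodable α] {f : α → ℕ} {s : α → List Bool}
    (hf : Computable f) (hs : Computable s) : Computable fun x => D.A (f x) (ext (s x)) :=
  D.hAc.comp hf hs

theorem comp_kc : Computable₂ fun (n : ℕ) (s : List Bool) => D.kc n (ext s) := by
  classical
  have h1 : ComputablePred fun x : (ℕ × List Bool) × (ℕ × (ℕ × ℕ)) =>
      D.n0 < x.2.1 + 1 ∧ D.q * D.W (x.2.1 + 1) (x.2.1 + 1) (D.A (x.2.1 + 1) (ext x.1.2))
          (pre (ext x.1.2) (x.2.1 + 1)) ≤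
        D.p * D.W (x.2.1 + 1) x.2.2.2 (D.A (x.2.1 + 1) (ext x.1.2))
          (pre (ext x.1.2) x.2.2.2) := by
    have hs : Computable fun x : (ℕ × List Bool) × (ℕ × (ℕ × ℕ)) => x.1.2 :=
      Computable.snd.comp Computable.fst
    have hi : Computable fun x : (ℕ × List Bool) × (ℕ × (ℕ × ℕ)) => x.2.1 + 1 :=
      Computable.succ.comp (Computable.fst.comp Computable.snd)
    have hj : Computable fun x : (ℕ × List Bool) × (ℕ × (ℕ × ℕ)) => x.2.2.2 :=
      Computable.snd.comp (Computable.snd.comp Computable.snd)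
    have hA : Computable fun x : (ℕ × List Bool) × (ℕ × (ℕ × ℕ)) =>
        D.A (x.2.1 + 1) (ext x.1.2) := D.comp_A' hi hs
    have hp1 : Computable fun x : (ℕ × List Bool) × (ℕ × (ℕ × ℕ)) =>
        pre (ext x.1.2) (x.2.1 + 1) := comp_pre_ext' hi hs
    have hp2 : Computable fun x : (ℕ × List Bool) × (ℕ × (ℕ × ℕ)) =>
        pre (ext x.1.2) x.2.2.2 := comp_pre_ext' hj hs
    have hW1 : Computable fun x : (ℕ × List Bool) × (ℕ × (ℕ × ℕ)) =>
        D.W (x.2.1 + 1) (x.2.1 + 1) (D.A (x.2.1 + 1) (ext x.1.2)) (pre (ext x.1.2) (x.2.1 + 1)) :=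
      D.comp_W' hi hi hA hp1
    have hW2 : Computable fun x : (ℕ × List Bool) × (ℕ × (ℕ × ℕ)) =>
        D.W (x.2.1 + 1) x.2.2.2 (D.A (x.2.1 + 1) (ext x.1.2)) (pre (ext x.1.2) x.2.2.2) :=
      D.comp_W' hi hj hA hp2
    exact CP_and (CP_lt (Computable.const _) hi) (CP_le (comp_nat_mul (Computable.const _) hW1)
      (comp_nat_mul (Computable.const _) hW2))
  have h2 : Computable fun x : ℕ × List Bool =>
      (Nat.rec (0, D.n0) (fun i (r : ℕ × ℕ) =>
        if D.n0 < i + 1 ∧ D.q * D.W (i + 1) (i + 1) (D.A (i + 1) (ext x.2))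
              (pre (ext x.2) (i + 1)) ≤
            D.p * D.W (i + 1) r.2 (D.A (i + 1) (ext x.2)) (pre (ext x.2) r.2) then
          (r.1 + 1, i + 1) else r) x.1 : ℕ × ℕ) := by
    refine Computable.nat_rec (h := fun (x : ℕ × List Bool) (y : ℕ × (ℕ × ℕ)) =>
      if D.n0 < y.1 + 1 ∧ D.q * D.W (y.1 + 1) (y.1 + 1) (D.A (y.1 + 1) (ext x.2))
              (pre (ext x.2) (y.1 + 1)) ≤
            D.p * D.W (y.1 + 1) y.2.2 (D.A (y.1 + 1) (ext x.2)) (pre (ext x.2) y.2.2) then
          (y.2.1 + 1, y.1 + 1) else y.2) Computable.fst (Computable.const _) ?_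
    refine comp_ite h1 ?_ ?_
    · exact (Computable.succ.comp (Computable.fst.comp (Computable.snd.comp
        Computable.snd))).pair (Computable.succ.comp (Computable.fst.comp Computable.snd))
    · exact Computable.snd.comp Computable.snd
  refine h2.of_eq fun x => ?_
  have key : ∀ n, (Nat.rec (0, D.n0) (fun i (r : ℕ × ℕ) =>
        if D.n0 < i + 1 ∧ D.q * D.W (i + 1) (i + 1) (D.A (i + 1) (ext x.2))
              (pre (ext x.2) (i + 1)) ≤
            D.p * D.W (i + 1) r.2 (D.A (i + 1) (ext x.2)) (pre (ext x.2) r.2) then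
          (r.1 + 1, i + 1) else r) n : ℕ × ℕ) = D.kc n (ext x.2) := by
    intro n
    induction n with
    | zero => rfl
    | succ n ih => simp only [ih]; rfl
  exact key x.1

/-- the test -/
def T (c k : ℕ) (τ : List Bool) : Prop :=
  ∃ n, D.n0 ≤ n ∧ τ.length = D.U n ∧ D.valid n (ext τ) ∧ c * k ≤ (D.kc n (ext τ)).1

theorem re_valid : REPred fun x : ℕ × List Bool => D.valid x.1 (ext x.2) := by
  have h1 : REPred fun x : ℕ × List Bool => ∀ j < x.1 + 1, D.n0 ≤ j →
      D.G j (D.A j (ext x.2)) (pre (ext x.2) j) := by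
    refine RE_forall_lt (Computable.succ.comp Computable.fst) ?_
    have h2 : REPred fun y : (ℕ × List Bool) × ℕ => ¬ (D.n0 ≤ y.2) ∨
        D.G y.2 (D.A y.2 (ext y.1.2)) (pre (ext y.1.2) y.2) := by
      refine RE_or (ComputablePred.to_re (CP_not (CP_le (Computable.const _) Computable.snd))) ?_
      have hs : Computable fun y : (ℕ × List Bool) × ℕ => y.1.2 :=
        Computable.snd.comp Computable.fst
      exact RE_comp D.hGre (Computable.snd.pair ((D.hAc.comp Computable.snd hs).pair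
        (comp_pre_ext.comp hs Computable.snd)))
    refine h2.of_eq fun y => ?_
    tauto
  refine h1.of_eq fun x => ?_
  unfold valid
  constructor
  · intro h j h0 hj
    exact h j (by omega) h0
  · intro h j hj h0
    exact h j h0 (by omega)

theorem re_T (c : ℕ) : REPred fun r : ℕ × List Bool => D.T c r.1 r.2 := by
  unfold T
  refine RE_exists ?_
  have hn : Computable fun y : (ℕ × List Bool) × ℕ => y.2 := Computable.snd
  have hs : Computable fun y : (ℕ × List Bool) × ℕ => y.1.2 :=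
    Computable.snd.comp Computable.fst
  refine RE_and (ComputablePred.to_re (CP_le (Computable.const _) hn)) (RE_and
    (ComputablePred.to_re (CP_eq (Computable.list_length.comp hs) (D.hU.comp hn))) (RE_and ?_ ?_))
  · exact RE_comp D.re_valid (hn.pair hs)
  · refine ComputablePred.to_re (CP_le ?_ ?_)
    · exact comp_nat_mul (Computable.const _) (Computable.fst.comp Computable.fst)
    · exact Computable.fst.comp (D.comp_kc.comp hn hs)

theorem Opn_T (c k : ℕ) : Opn (D.T c k) = D.GG (c * k) := by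
  ext X
  rw [mem_Opn]
  have key : ∀ n, D.A n (ext (pre X (D.U n))) = D.A n X := fun n =>
    D.hA1 n _ _ (pre_ext_pre X le_rfl)
  constructor
  · rintro ⟨τ, ⟨n, h0, hl, hv, hk⟩, hτ⟩
    rw [hl] at hτ
    subst hτ
    have h1 : pre (ext (pre X (D.U n))) n = pre X n := pre_ext_pre X (D.hUn n)
    refine ⟨n, h0, D.valid_congr (key n) h1 hv, ?_⟩
    rwa [D.kc_congr (key n) h1] at hk
  · rintro ⟨n, h0, hv, hk⟩
    have h1 : pre (ext (pre X (D.U n))) n = pre X n := pre_ext_pre X (D.hUn n)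
    refine ⟨pre X (D.U n), ⟨n, h0, by simp, ?_, ?_⟩, by simp⟩
    · exact D.valid_congr (key n).symm h1.symm hv
    · rwa [D.kc_congr (key n) h1]

theorem isMLTest_T {c : ℕ} (hq : 0 < D.q) (hc : 2 * D.p ^ c ≤ D.q ^ c) :
    IsMLTest (D.T c) := by
  refine ⟨D.re_T c, fun k => ?_⟩
  change coin (Opn (D.T c k)) ≤ _
  rw [D.Opn_T]
  have h1 := D.GG_bound (c * k)
  have h2 : (D.q : ℝ≥0∞) ^ (c * k) ≠ 0 := by
    have : (D.q : ℝ≥0∞) ≠ 0 := by exact_mod_cast hq.ne'
    exact pow_ne_zero _ this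
  have h3 : (D.q : ℝ≥0∞) ^ (c * k) ≠ ⊤ := ENNReal.pow_ne_top (ENNReal.natCast_ne_top _)
  have h4 : (2 : ℝ≥0∞) ^ k * (D.p : ℝ≥0∞) ^ (c * k) ≤ (D.q : ℝ≥0∞) ^ (c * k) := by
    rw [pow_mul, pow_mul, ← mul_pow]
    gcongr
    exact_mod_cast hc
  have h5 : (D.q : ℝ≥0∞) ^ (c * k) * ((2 : ℝ≥0∞) ^ k * coin (D.GG (c * k))) ≤
      (D.q : ℝ≥0∞) ^ (c * k) * 1 := by
    calc (D.q : ℝ≥0∞) ^ (c * k) * ((2 : ℝ≥0∞) ^ k * coin (D.GG (c * k)))
        = (2 : ℝ≥0∞) ^ k * ((D.q : ℝ≥0∞) ^ (c * k) * coin (D.GG (c * k))) := by ring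
      _ ≤ (2 : ℝ≥0∞) ^ k * (D.p : ℝ≥0∞) ^ (c * k) := by gcongr
      _ ≤ _ := by rw [mul_one]; exact h4
  have h6 : (2 : ℝ≥0∞) ^ k * coin (D.GG (c * k)) ≤ 1 :=
    (ENNReal.mul_le_mul_iff_right h2 h3).1 h5
  rw [← ENNReal.inv_pow]
  rw [ENNReal.le_inv_iff_mul_le, mul_comm]
  exact h6

/-- **Chain lemma.** -/
theorem chain_main {c : ℕ} (hq : 0 < D.q) (hc : 2 * D.p ^ c ≤ D.q ^ c) {X : ℕ → Bool}
    (hX : MLRandom X) (hv : ∀ n, D.n0 ≤ n → D.G n (D.A n X) (pre X n)) :
    ∃ n' N, D.n0 ≤ n' ∧ n' ≤ N ∧ ∀ n > N,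
      D.p * D.W n n' (D.A n X) (pre X n') < D.q * D.W n n (D.A n X) (pre X n) := by
  obtain ⟨k, hk⟩ := hX _ (D.isMLTest_T hq hc)
  change X ∉ Opn (D.T c k) at hk
  rw [D.Opn_T] at hk
  have h1 : ∀ n, D.n0 ≤ n → (D.kc n X).1 < c * k := by
    intro n hn
    by_contra hcon
    exact hk ⟨n, hn, fun j h0 _ => hv j h0, not_lt.1 hcon⟩
  -- stabilisation
  have hmono := D.kc_mono_fst X
  have hex : ∃ N, D.n0 ≤ N ∧ ∀ n ≥ N, (D.kc n X).1 ≤ (D.kc N X).1 := by
    by_contra hcon
    push Not at hcon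
    have : ∀ j, ∃ n, D.n0 ≤ n ∧ j ≤ (D.kc n X).1 := by
      intro j
      induction j with
      | zero => exact ⟨D.n0, le_rfl, Nat.zero_le _⟩
      | succ j ih =>
        obtain ⟨n, hn, hj⟩ := ih
        obtain ⟨n2, hn2, h⟩ := hcon n hn
        exact ⟨n2, hn.trans hn2, by omega⟩
    obtain ⟨n, hn, h⟩ := this (c * k)
    exact absurd (h1 n hn) (not_lt.2 h)
  obtain ⟨N, hN0, hN⟩ := hex
  have h2 : ∀ n ≥ N, D.kc n X = D.kc N X := by
    intro n hn
    induction n, hn using Nat.le_induction with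
    | base => rfl
    | succ n hn ih =>
      have h3 := D.kc_succ n X
      split_ifs at h3 with h4
      · have h5 := hN (n + 1) (by omega)
        rw [h3, ih] at h5
        simp at h5
      · rw [h3, ih]
  refine ⟨(D.kc N X).2, N, D.n0_le_kc N X, D.kc_le hN0 X, fun n hn => ?_⟩
  obtain ⟨n, rfl⟩ : ∃ m, n = m + 1 := ⟨n - 1, by omega⟩
  have h3 := D.kc_succ n X
  have h4 := h2 (n + 1) (by omega)
  have h5 := h2 n (by omega)
  split_ifs at h3 with h6
  · rw [h3, h5] at h4
    have := congrArg Prod.fst h4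
    simp at this
  · by_contra hcon
    apply h6
    rw [h5]
    exact ⟨by omega, not_lt.1 hcon⟩

end ChainData

end Pool.Agent.OmegaTT
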