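import Mathlib
import Pool.Agent.Lib.MP_a2e505_lc.Strings

/-!
The real value of a binary sequence; random sequences are not eventually constant.
-/

namespace Pool.Agent.OmegaTT

open MeasureTheory
open scoped ENNReal

theorem summable_val (X : ℕ → Bool) :
    Summable fun n : ℕ => (if X n then (1 : ℝ) else 0) / 2 ^ (n + 1) := by
  have h1 : Summable fun n : ℕ => (1 / 2 : ℝ) ^ n * (1 / 2) :=
    (summable_geometric_two).mul_right _
  refine Summable.of_nonneg_of_le (fun n => by positivity) (fun n => ?_) h1
  rw [← pow_succ, one_div, inv_pow, ← one_div]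
  gcongr
  split_ifs <;> norm_num

theorem val_nonneg (X : ℕ → Bool) : 0 ≤ val X := tsum_nonneg fun n => by positivity

theorem val_le_one (X : ℕ → Bool) : val X ≤ 1 := by
  have h1 : HasSum (fun n : ℕ => (1 / 2 : ℝ) ^ n * (1 / 2)) 1 := by
    have := hasSum_geometric_two.mul_right (1 / 2 : ℝ)
    norm_num at this
    exact this
  rw [← h1.tsum_eq]
  refine Summable.tsum_le_tsum (fun n => ?_) (summable_val X) h1.summable
  rw [← pow_succ, one_div, inv_pow, ← one_div]
  gcongr
  split_ifs <;> norm_num

theorem val_step (X : ℕ → Bool) : 2 * val X = (X 0).toNat + val fun n => X (n + 1) := by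
  unfold val
  rw [(summable_val X).tsum_eq_zero_add, mul_add, ← tsum_mul_left]
  congr 1
  · cases X 0 <;> simp
  · refine tsum_congr fun n => ?_
    rw [pow_succ (2 : ℝ) (n + 1)]
    field_simp

theorem val_eq (X : ℕ → Bool) (n : ℕ) :
    2 ^ n * val X = num (pre X n) + val fun i => X (i + n) := by
  induction n with
  | zero => simp
  | succ n ih =>
    rw [pow_succ', mul_assoc, ih, mul_add, val_step (fun i => X (i + n)), pre_succ, num_concat]
    push_cast
    simp only [zero_add]
    have : (fun i => X (i + 1 + n)) = fun i => X (i + (n + 1)) := by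
      funext i; congr 1; omega
    rw [this]
    ring

theorem num_le_val (X : ℕ → Bool) (n : ℕ) : (num (pre X n) : ℝ) ≤ 2 ^ n * val X := by
  rw [val_eq X n]
  have := val_nonneg fun i => X (i + n)
  linarith

theorem val_le_num (X : ℕ → Bool) (n : ℕ) : 2 ^ n * val X ≤ num (pre X n) + 1 := by
  rw [val_eq X n]
  have := val_le_one fun i => X (i + n)
  linarith

theorem val_pos {X : ℕ → Bool} (h : ∃ i, X i = true) : 0 < val X := by
  obtain ⟨i, hi⟩ := h
  have h1 := num_le_val X (i + 1)
  rw [pre_succ, num_concat, hi] at h1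
  have h2 : (1 : ℝ) ≤ 2 ^ (i + 1) * val X := by
    refine le_trans ?_ h1
    push_cast
    have : (0 : ℝ) ≤ num (pre X i) := Nat.cast_nonneg _
    simp only [Bool.toNat_true, Nat.cast_one]
    linarith
  by_contra hcon
  have h3 : val X ≤ 0 := not_lt.1 hcon
  have h4 : (2 : ℝ) ^ (i + 1) * val X ≤ 0 := mul_nonpos_of_nonneg_of_nonpos (by positivity) h3
  linarith

theorem val_lt_one {X : ℕ → Bool} (h : ∃ i, X i = false) : val X < 1 := by
  obtain ⟨i, hi⟩ := h
  have h1 := val_le_num X (i + 1)
  rw [pre_succ, num_concat, hi] at h1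
  have h2 : num (pre X i) + 1 ≤ 2 ^ i := by simpa using num_lt (pre X i)
  have h3 : (num (pre X i) : ℝ) + 1 ≤ 2 ^ i := by exact_mod_cast h2
  have h4 : (2 : ℝ) ^ (i + 1) * val X ≤ 2 ^ (i + 1) - 1 := by
    refine h1.trans ?_
    push_cast
    simp only [Bool.toNat_false, Nat.cast_zero]
    rw [pow_succ]
    linarith
  have h5 : (0 : ℝ) < 2 ^ (i + 1) := by positivity
  nlinarith

/-- random sequences are not eventually constant -/
theorem MLRandom.exists_bit {X : ℕ → Bool} (hX : MLRandom X) (N : ℕ) (b : Bool) :
    ∃ n ≥ N, X n = b := by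
  by_contra hcon
  push Not at hcon
  have hconst : ∀ n ≥ N, X n = !b := fun n hn => by
    have := hcon n hn
    cases b <;> cases h : X n <;> simp_all
  let V : ℕ → List Bool → Prop := fun k s => s = pre X N ++ (List.range k).map fun _ => !b
  have hV : IsMLTest V := by
    constructor
    · refine ComputablePred.to_re (CP_eq Computable.snd ?_)
      refine Computable.list_append.comp (Computable.const _) ?_
      exact comp_list_map (comp_list_range Computable.fst) (Computable.const _)
    · intro k
      have h1 : (⋃ s ∈ {s : List Bool | V k s}, Cyl s) =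
          Cyl (pre X N ++ (List.range k).map fun _ => !b) := by
        ext Y
        simp [V]
      rw [h1, coin_Cyl]
      simp only [List.length_append, length_pre, List.length_map, List.length_range]
      rw [add_comm, pow_add]
      calc (2⁻¹ : ℝ≥0∞) ^ k * (2⁻¹ : ℝ≥0∞) ^ N ≤ (2⁻¹ : ℝ≥0∞) ^ k * 1 := by
            gcongr
            exact pow_le_one₀ (zero_le) (by simp)
        _ = _ := mul_one _
  obtain ⟨k, hk⟩ := hX V hV
  apply hk
  have h2 : ∀ k, pre X (N + k) = pre X N ++ (List.range k).map fun _ => !b := by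
    intro k
    induction k with
    | zero => simp
    | succ k ih =>
      have : pre X (N + (k + 1)) = pre X (N + k) ++ [X (N + k)] := by
        rw [← add_assoc, pre_succ]
      rw [this, hconst _ (by omega), List.range_succ, List.map_append, ← List.append_assoc, ih]
      rfl
  simp only [Set.mem_iUnion]
  exact ⟨_, rfl, by rw [mem_Cyl]; simpa using h2 k⟩

theorem MLRandom.num_lt_val {X : ℕ → Bool} (hX : MLRandom X) (n : ℕ) :
    (num (pre X n) : ℝ) < 2 ^ n * val X := by
  rw [val_eq X n]
  have : 0 < val fun i => X (i + n) := by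
    obtain ⟨k, hk, hb⟩ := hX.exists_bit n true
    exact val_pos ⟨k - n, by simpa [Nat.sub_add_cancel hk] using hb⟩
  linarith

theorem MLRandom.val_lt_num {X : ℕ → Bool} (hX : MLRandom X) (n : ℕ) :
    2 ^ n * val X < num (pre X n) + 1 := by
  rw [val_eq X n]
  have : (val fun i => X (i + n)) < 1 := by
    obtain ⟨k, hk, hb⟩ := hX.exists_bit n false
    exact val_lt_one ⟨k - n, by simpa [Nat.sub_add_cancel hk] using hb⟩
  linarith

end Pool.Agent.OmegaTT
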