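import Mathlib
import Pool.Agent.Lib.MP_a2e505_lc.Val

/-!
Existence of an Omega-number: the leftmost path outside a universal open set.
-/

namespace Pool.Agent.OmegaTT

open MeasureTheory
open scoped ENNReal
open Nat.Partrec (Code)
open Nat.Partrec.Code (evaln)
open Encodable Denumerable

/-! ### Bounded enumeration of tests -/

/-- maximal length of a string in a list -/
def Lmax (F : List (List Bool)) : ℕ := (F.map List.length).foldl max 0

theorem le_foldl_max (l : List ℕ) (a : ℕ) :
    a ≤ l.foldl max a ∧ ∀ x ∈ l, x ≤ l.foldl max a := by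
  induction l generalizing a with
  | nil => simp
  | cons y l ih =>
    simp only [List.foldl_cons]
    obtain ⟨h1, h2⟩ := ih (max a y)
    refine ⟨(le_max_left _ _).trans h1, fun x hx => ?_⟩
    rcases List.mem_cons.1 hx with rfl | hx
    · exact (le_max_right _ _).trans h1
    · exact h2 x hx

theorem length_le_Lmax {F : List (List Bool)} {s : List Bool} (hs : s ∈ F) : s.length ≤ Lmax F :=
  (le_foldl_max _ 0).2 _ (List.mem_map.2 ⟨s, hs, rfl⟩)

theorem comp_Lmax : Computable Lmax := by
  unfold Lmax
  refine comp_list_foldl (h := fun (_ : List (List Bool)) (p : ℕ × ℕ) => max p.1 p.2) ?_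
    (Computable.const 0) ?_
  · exact comp_list_map Computable.id (Computable.list_length.comp Computable.snd)
  · exact Primrec.nat_max.to_comp.comp (Computable.fst.comp Computable.snd)
      (Computable.snd.comp Computable.snd)

/-- decidable version of `coin (Opn F) ≤ 2^{-k}` for finite `F` -/
def okB (k : ℕ) (F : List (List Bool)) : Bool :=
  decide (((List.range (2 ^ Lmax F)).filter fun j =>
    F.any fun s => decide (s = (bits (Lmax F) j).take s.length)).length * 2 ^ k ≤ 2 ^ Lmax F)

theorem Cov_pre_of_finite {F : List (List Bool)} {X : ℕ → Bool} :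
    X ∈ Opn (· ∈ F) ↔ Cov (· ∈ F) (pre X (Lmax F)) := by
  rw [mem_Opn_iff_Cov]
  constructor
  · rintro ⟨L, s, hs, h⟩
    exact ⟨s, hs, (prefix_pre_iff _ _ _).2 ⟨length_le_Lmax hs, ((prefix_pre_iff _ _ _).1 h).2⟩⟩
  · intro h; exact ⟨_, h⟩

theorem okB_iff (k : ℕ) (F : List (List Bool)) :
    okB k F = true ↔ coin (Opn (· ∈ F)) ≤ (2⁻¹ : ℝ≥0∞) ^ k := by
  have h1 : Opn (· ∈ F) = {X | Cov (· ∈ F) (pre X (Lmax F))} := by
    ext X; exact Cov_pre_of_finite
  rw [h1, coin_level, ennreal_half_pow_le]
  unfold okB
  rw [decide_eq_true_iff]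
  rw [cnt_eq_list (p := fun t => F.any fun s => decide (s = t.take s.length))]
  intro j _
  simp [Cov, List.prefix_iff_eq_take]

theorem comp_okB : Computable₂ okB := by
  have hL : Computable fun x : ℕ × List (List Bool) => Lmax x.2 := comp_Lmax.comp Computable.snd
  have h1 : ComputablePred fun z : ((ℕ × List (List Bool)) × ℕ) × List Bool =>
      z.2 = (bits (Lmax z.1.1.2) z.1.2).take z.2.length := by
    have hb : Computable fun z : ((ℕ × List (List Bool)) × ℕ) × List Bool =>
        bits (Lmax z.1.1.2) z.1.2 :=
      comp_bits.comp (hL.comp (Computable.fst.comp Computable.fst))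
        (Computable.snd.comp Computable.fst)
    exact CP_eq Computable.snd (comp_take.comp (Computable.list_length.comp Computable.snd) hb)
  have h2 : Computable₂ fun (x : ℕ × List (List Bool)) (j : ℕ) =>
      x.2.any fun s => decide (s = (bits (Lmax x.2) j).take s.length) :=
    comp_list_any (f := fun y : (ℕ × List (List Bool)) × ℕ => y.1.2)
      (g := fun (y : (ℕ × List (List Bool)) × ℕ) s =>
        decide (s = (bits (Lmax y.1.2) y.2).take s.length))
      (Computable.snd.comp Computable.fst) h1.decide
  have h3 : Computable fun x : ℕ × List (List Bool) =>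
      ((List.range (2 ^ Lmax x.2)).filter fun j =>
        x.2.any fun s => decide (s = (bits (Lmax x.2) j).take s.length)).length :=
    Computable.list_length.comp (comp_list_filter
      (comp_list_range (comp_pow2.to_comp.comp hL)) h2)
  have h4 : ComputablePred fun x : ℕ × List (List Bool) =>
      ((List.range (2 ^ Lmax x.2)).filter fun j =>
        x.2.any fun s => decide (s = (bits (Lmax x.2) j).take s.length)).length * 2 ^ x.1 ≤
        2 ^ Lmax x.2 :=
    CP_le (comp_nat_mul h3 (comp_pow2.to_comp.comp Computable.fst)) (comp_pow2.to_comp.comp hL)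
  exact h4.decide

/-- candidate for enumeration at stage `t` -/
def cand (e t : ℕ) : Option (List Bool) :=
  (decode (α := List Bool) t.unpair.1).bind fun s =>
    cond (evaln t.unpair.2 (ofNat Code e) (encode (e + 2, s))).isSome (some s) none

theorem comp_evaln {α : Type*} [Primcodable α] {k : α → ℕ} {c : α → Code} {n : α → ℕ}
    (hk : Computable k) (hc : Computable c) (hn : Computable n) :
    Computable fun a => evaln (k a) (c a) (n a) :=
  Nat.Partrec.Code.primrec_evaln.to_comp.comp ((hk.pair hc).pair hn)

theorem comp_isSome {α β : Type*} [Primcodable α] [Primcodable β] {f : α → Option β}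
    (hf : Computable f) : Computable fun a => (f a).isSome :=
  Primrec.option_isSome.to_comp.comp hf

theorem comp_encode_pair {α β γ : Type*} [Primcodable α] [Primcodable β] [Primcodable γ]
    {f : α → β} {g : α → γ} (hf : Computable f) (hg : Computable g) :
    Computable fun a => encode (f a, g a) :=
  Computable.encode.comp (hf.pair hg)

theorem comp_cand_aux : Computable fun z : (ℕ × ℕ) × List Bool =>
    (evaln z.1.2.unpair.2 (ofNat Code z.1.1) (encode (z.1.1 + 2, z.2))).isSome := by
  have h1 : Computable fun z : (ℕ × ℕ) × List Bool => z.1.2.unpair.2 :=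
    Computable.snd.comp (Computable.unpair.comp (Computable.snd.comp Computable.fst))
  have h2 : Computable fun z : (ℕ × ℕ) × List Bool => (ofNat Code z.1.1) :=
    (Computable.ofNat Code).comp (Computable.fst.comp Computable.fst)
  have h3 : Computable fun z : (ℕ × ℕ) × List Bool => z.1.1 + 2 :=
    comp_nat_add (Computable.fst.comp Computable.fst) (Computable.const 2)
  exact comp_isSome (comp_evaln h1 h2 (comp_encode_pair h3 Computable.snd))

theorem comp_cand : Computable₂ cand := by
  unfold cand
  have h1 : Computable fun x : ℕ × ℕ => decode (α := List Bool) x.2.unpair.1 :=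
    Computable.decode.comp (Computable.fst.comp (Computable.unpair.comp Computable.snd))
  have h2 : Computable₂ fun (x : ℕ × ℕ) (s : List Bool) =>
      cond (evaln x.2.unpair.2 (ofNat Code x.1) (encode (x.1 + 2, s))).isSome (some s) none :=
    Computable.cond comp_cand_aux (Computable.option_some.comp Computable.snd)
      (Computable.const none)
  exact Computable.option_bind h1 h2

/-- one step of the bounded enumeration -/
def stepF (e t : ℕ) (F : List (List Bool)) : List (List Bool) :=
  ((cand e t).map fun s => cond (okB (e + 2) (s :: F)) (s :: F) F).getD F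

/-- bounded enumeration of the `e`-th test at level `e + 2` -/
def FF (e : ℕ) : ℕ → List (List Bool)
  | 0 => []
  | t + 1 => stepF e t (FF e t)

theorem comp_stepF : Computable fun x : ℕ × ℕ × List (List Bool) => stepF x.1 x.2.1 x.2.2 := by
  unfold stepF
  have hF : Computable fun z : (ℕ × ℕ × List (List Bool)) × List Bool => z.1.2.2 :=
    Computable.snd.comp (Computable.snd.comp Computable.fst)
  have hs : Computable fun z : (ℕ × ℕ × List (List Bool)) × List Bool => z.2 :: z.1.2.2 :=
    Computable.list_cons.comp Computable.snd hF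
  have he : Computable fun z : (ℕ × ℕ × List (List Bool)) × List Bool => z.1.1 + 2 :=
    comp_nat_add (Computable.fst.comp Computable.fst) (Computable.const 2)
  have ho : Computable fun z : (ℕ × ℕ × List (List Bool)) × List Bool =>
      okB (z.1.1 + 2) (z.2 :: z.1.2.2) := comp_okB.comp he hs
  have hc : Computable fun x : ℕ × ℕ × List (List Bool) => cand x.1 x.2.1 :=
    comp_cand.comp Computable.fst (Computable.fst.comp Computable.snd)
  have hm : Computable₂ fun (x : ℕ × ℕ × List (List Bool)) (s : List Bool) =>
      cond (okB (x.1 + 2) (s :: x.2.2)) (s :: x.2.2) x.2.2 := Computable.cond ho hs hF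
  exact Computable.option_getD (Computable.option_map hc hm) (Computable.snd.comp Computable.snd)

theorem comp_stepF' {α : Type*} [Primcodable α] {f g : α → ℕ} {F : α → List (List Bool)}
    (hf : Computable f) (hg : Computable g) (hF : Computable F) :
    Computable fun a => stepF (f a) (g a) (F a) := by
  have h := Computable.comp (f := fun x : ℕ × ℕ × List (List Bool) => stepF x.1 x.2.1 x.2.2)
    (g := fun a => (f a, g a, F a)) comp_stepF (hf.pair (hg.pair hF))
  exact h

theorem comp_FF : Computable₂ FF := by
  have h0 : Computable₂ fun (x : ℕ × ℕ) (y : ℕ × List (List Bool)) => stepF x.1 y.1 y.2 :=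
    comp_stepF' (f := fun z : (ℕ × ℕ) × (ℕ × List (List Bool)) => z.1.1)
      (g := fun z => z.2.1) (F := fun z => z.2.2)
      (Computable.fst.comp Computable.fst) (Computable.fst.comp Computable.snd)
      (Computable.snd.comp Computable.snd)
  have h1 : Computable fun x : ℕ × ℕ =>
      (Nat.rec [] (fun t F => stepF x.1 t F) x.2 : List (List Bool)) :=
    Computable.nat_rec (f := fun x : ℕ × ℕ => x.2) (g := fun _ => ([] : List (List Bool)))
      (h := fun (x : ℕ × ℕ) (y : ℕ × List (List Bool)) => stepF x.1 y.1 y.2)
      Computable.snd (Computable.const _) h0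
  refine h1.of_eq fun x => ?_
  obtain ⟨e, t⟩ := x
  simp only
  induction t with
  | zero => rfl
  | succ t ih => simp only [ih]; rfl

theorem FF_subset (e t : ℕ) : ∀ s ∈ FF e t, s ∈ FF e (t + 1) := by
  intro s hs
  change s ∈ stepF e t (FF e t)
  unfold stepF
  cases h : cand e t with
  | none => simpa using hs
  | some s' =>
    simp only [Option.map_some, Option.getD_some]
    cases okB (e + 2) (s' :: FF e t) with
    | true => simp [hs]
    | false => simpa using hs

theorem FF_mono (e : ℕ) {t t' : ℕ} (h : t ≤ t') : ∀ s ∈ FF e t, s ∈ FF e t' := by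
  induction t', h using Nat.le_induction with
  | base => exact fun s hs => hs
  | succ t' _ ih => exact fun s hs => FF_subset e t' s (ih s hs)

theorem FF_ok (e t : ℕ) : coin (Opn (· ∈ FF e t)) ≤ (2⁻¹ : ℝ≥0∞) ^ (e + 2) := by
  induction t with
  | zero =>
    have : Opn (· ∈ FF e 0) = ∅ := by
      ext X; simp [mem_Opn, FF]
    rw [this]; simp
  | succ t ih =>
    have : FF e (t + 1) = stepF e t (FF e t) := rfl
    rw [this]
    unfold stepF
    cases h : cand e t with
    | none => simpa using ih
    | some s' =>
      simp only [Option.map_some, Option.getD_some]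
      cases hok : okB (e + 2) (s' :: FF e t) with
      | true => simpa only [cond_true] using (okB_iff _ _).1 hok
      | false => simpa using ih

theorem Opn_mono {S T : List Bool → Prop} (h : ∀ s, S s → T s) : Opn S ⊆ Opn T := by
  intro X hX
  rw [mem_Opn] at hX ⊢
  obtain ⟨s, h1, h2⟩ := hX
  exact ⟨s, h s h1, h2⟩

/-- the universal set of strings -/
def US (s : List Bool) : Prop := ∃ e t, s ∈ FF e t

theorem re_US : REPred US := by
  unfold US
  refine RE_exists ?_
  refine RE_of_exists ?_
  exact CP_mem' (comp_FF.comp (Computable.snd.comp Computable.fst) Computable.snd)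
    (Computable.fst.comp Computable.fst)
where
  CP_mem' {α β : Type} [Primcodable α] [Primcodable β] {g : α → List β} {s : α → β}
    (hg : Computable g) (hs : Computable s) : ComputablePred fun x => s x ∈ g x :=
  (CP_exists_list (p := fun x r => r = s x) hg (CP_eq Computable.snd (hs.comp Computable.fst))).of_eq
    fun x => by simp

theorem coin_US : coin (Opn US) ≤ 2⁻¹ := by
  have h1 : Opn US ⊆ ⋃ e, ⋃ t, Opn (· ∈ FF e t) := by
    intro X hX
    rw [mem_Opn] at hX
    obtain ⟨s, ⟨e, t, hs⟩, hX⟩ := hX
    simp only [Set.mem_iUnion]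
    exact ⟨e, t, mem_Opn.2 ⟨s, hs, hX⟩⟩
  have h2 : ∀ e, coin (⋃ t, Opn (· ∈ FF e t)) ≤ (2⁻¹ : ℝ≥0∞) ^ (e + 2) := by
    intro e
    have hm : Monotone fun t => Opn (· ∈ FF e t) := fun t t' h => Opn_mono (FF_mono e h)
    rw [hm.measure_iUnion]
    exact iSup_le fun t => FF_ok e t
  calc coin (Opn US) ≤ coin (⋃ e, ⋃ t, Opn (· ∈ FF e t)) := measure_mono h1
    _ ≤ ∑' e, coin (⋃ t, Opn (· ∈ FF e t)) := measure_iUnion_le _
    _ ≤ ∑' e : ℕ, (2⁻¹ : ℝ≥0∞) * (2⁻¹ : ℝ≥0∞) ^ (e + 1) := by
        refine ENNReal.tsum_le_tsum fun e => (h2 e).trans_eq ?_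
        rw [← pow_succ']
    _ = 2⁻¹ := by
        rw [ENNReal.tsum_mul_left, ENNReal.tsum_geometric_add_one, ENNReal.one_sub_inv_two,
          inv_inv, ENNReal.inv_mul_cancel (by norm_num) (by norm_num), mul_one]

theorem random_of_not_mem_US {X : ℕ → Bool} (hX : X ∉ Opn US) : MLRandom X := by
  intro U hU
  by_contra hcon
  push Not at hcon
  obtain ⟨c, hc⟩ := Nat.Partrec.Code.exists_code.1 hU.1
  have hUc : ∀ k s, U k s ↔ (c.eval (encode (k, s))).Dom := by
    intro k s
    rw [hc]
    simp [Part.assert]
  set e := encode c with he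
  have hce : (ofNat Code e) = c := by rw [he]; exact ofNat_encode c
  -- all enumerated strings belong to `U (e + 2)`
  have hcand : ∀ t s, cand e t = some s → U (e + 2) s := by
    intro t s hs
    unfold cand at hs
    rw [Option.bind_eq_some_iff] at hs
    obtain ⟨s', -, hs'⟩ := hs
    cases h : (evaln t.unpair.2 (ofNat Code e) (encode (e + 2, s'))).isSome with
    | false =>
      rw [h, cond_false] at hs'
      exact absurd hs' (by simp)
    | true =>
      rw [h, cond_true, Option.some.injEq] at hs'
      subst hs'
      rw [hUc, Part.dom_iff_mem]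
      rw [Option.isSome_iff_exists] at h
      obtain ⟨y, hy⟩ := h
      rw [hce] at hy
      exact ⟨y, Nat.Partrec.Code.evaln_complete.2 ⟨_, hy⟩⟩
  have hFF : ∀ t, ∀ s ∈ FF e t, U (e + 2) s := by
    intro t
    induction t with
    | zero => simp [FF]
    | succ t ih =>
      intro s hs
      change s ∈ stepF e t (FF e t) at hs
      unfold stepF at hs
      cases h : cand e t with
      | none => rw [h] at hs; exact ih s (by simpa using hs)
      | some s' =>
        rw [h] at hs
        simp only [Option.map_some, Option.getD_some] at hs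
        cases hok : okB (e + 2) (s' :: FF e t) with
        | true =>
          rw [hok, cond_true, List.mem_cons] at hs
          rcases hs with rfl | hs
          · exact hcand t _ h
          · exact ih s hs
        | false => rw [hok, cond_false] at hs; exact ih s hs
  have hall : ∀ s, U (e + 2) s → US s := by
    intro s hs
    have h1 := (hUc _ _).1 hs
    rw [Part.dom_iff_mem] at h1
    obtain ⟨y, hy⟩ := h1
    obtain ⟨u, hu⟩ := Nat.Partrec.Code.evaln_complete.1 hy
    refine ⟨e, Nat.pair (encode s) u + 1, ?_⟩
    change s ∈ stepF e (Nat.pair (encode s) u) (FF e (Nat.pair (encode s) u))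
    set t := Nat.pair (encode s) u with ht
    have h2 : cand e t = some s := by
      unfold cand
      rw [ht, Nat.unpair_pair]
      simp only [encodek, Option.bind_some]
      have : (evaln u (ofNat Code e) (encode (e + 2, s))).isSome = true := by
        rw [Option.isSome_iff_exists]
        exact ⟨y, by rw [hce]; exact hu⟩
      rw [this, cond_true]
    unfold stepF
    rw [h2]
    simp only [Option.map_some, Option.getD_some]
    have h3 : okB (e + 2) (s :: FF e t) = true := by
      rw [okB_iff]
      refine (measure_mono (Opn_mono ?_)).trans (hU.2 (e + 2))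
      intro s' hs'
      rcases List.mem_cons.1 hs' with rfl | hs'
      · exact hs
      · exact hFF t s' hs'
    rw [h3, cond_true]
    simp
  exact hX (Opn_mono hall (hcon (e + 2)))

/-! ### The leftmost path -/

/-- the cylinder of `s` is covered by the universal open set (by compactness, at a finite level) -/
def Full (s : List Bool) : Prop :=
  ∃ M, ∀ j < 2 ^ M, ∃ i, i < s.length + M + 1 ∧ US ((s ++ bits M j).take i)

theorem full_iff (s : List Bool) :
    Full s ↔ ∃ M, ∀ t : List Bool, t.length = M → Cov US (s ++ t) := by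
  unfold Full
  constructor
  · rintro ⟨M, hM⟩
    refine ⟨M, fun t ht => ?_⟩
    obtain ⟨i, -, hi⟩ := hM (num t) (by rw [← ht]; exact num_lt t)
    rw [← ht, bits_num] at hi
    exact ⟨_, hi, List.take_prefix _ _⟩
  · rintro ⟨M, hM⟩
    refine ⟨M, fun j _ => ?_⟩
    obtain ⟨u, hu, hpre⟩ := hM (bits M j) (length_bits _ _)
    refine ⟨u.length, ?_, ?_⟩
    · have := hpre.length_le
      simp only [List.length_append, length_bits] at this
      omega
    · rw [← List.prefix_iff_eq_take.1 hpre]; exact hu

theorem re_Full : REPred Full := by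
  unfold Full
  refine RE_exists ?_
  refine RE_forall_lt (comp_pow2.to_comp.comp Computable.snd) ?_
  refine RE_exists ?_
  have hs : Computable fun z : ((List Bool × ℕ) × ℕ) × ℕ => z.1.1.1 :=
    Computable.fst.comp (Computable.fst.comp Computable.fst)
  have hM : Computable fun z : ((List Bool × ℕ) × ℕ) × ℕ => z.1.1.2 :=
    Computable.snd.comp (Computable.fst.comp Computable.fst)
  have hj : Computable fun z : ((List Bool × ℕ) × ℕ) × ℕ => z.1.2 :=
    Computable.snd.comp Computable.fst
  have h1 : ComputablePred fun z : ((List Bool × ℕ) × ℕ) × ℕ =>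
      z.2 < z.1.1.1.length + z.1.1.2 + 1 :=
    CP_lt Computable.snd (Computable.succ.comp (comp_nat_add (Computable.list_length.comp hs) hM))
  have h2 : Computable fun z : ((List Bool × ℕ) × ℕ) × ℕ =>
      (z.1.1.1 ++ bits z.1.1.2 z.1.2).take z.2 :=
    comp_take.comp Computable.snd (Computable.list_append.comp hs (comp_bits.comp hM hj))
  exact RE_and h1.to_re (RE_comp re_US h2)

theorem cov_append {S : List Bool → Prop} {s t : List Bool} (h : Cov S s) : Cov S (s ++ t) := by
  obtain ⟨u, hu, hp⟩ := h
  exact ⟨u, hu, hp.trans (List.prefix_append _ _)⟩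

theorem full_mono {s : List Bool} {M M' : ℕ} (h : M ≤ M')
    (hM : ∀ t : List Bool, t.length = M → Cov US (s ++ t)) :
    ∀ t : List Bool, t.length = M' → Cov US (s ++ t) := by
  intro t ht
  have h1 : t = t.take M ++ t.drop M := (List.take_append_drop M t).symm
  rw [h1, ← List.append_assoc]
  exact cov_append (hM _ (by simp [ht, h]))

theorem full_of_both {s : List Bool} (h0 : Full (s ++ [false])) (h1 : Full (s ++ [true])) :
    Full s := by
  rw [full_iff] at *
  obtain ⟨M0, hM0⟩ := h0
  obtain ⟨M1, hM1⟩ := h1
  refine ⟨max M0 M1 + 1, fun t ht => ?_⟩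
  cases t with
  | nil => simp at ht
  | cons b t =>
    have hl : t.length = max M0 M1 := by simpa using ht
    have : s ++ b :: t = (s ++ [b]) ++ t := by simp
    rw [this]
    cases b with
    | false => exact full_mono (le_max_left _ _) hM0 t hl
    | true => exact full_mono (le_max_right _ _) hM1 t hl

theorem full_ext {s : List Bool} (b : Bool) (h : Full s) : Full (s ++ [b]) := by
  rw [full_iff] at *
  obtain ⟨M, hM⟩ := h
  refine ⟨M, fun t ht => ?_⟩
  rw [List.append_assoc]
  exact full_mono (Nat.le_succ M) hM _ (by simp [ht])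

theorem not_full_nil : ¬ Full [] := by
  intro h
  rw [full_iff] at h
  obtain ⟨M, hM⟩ := h
  have h1 : Opn US = Set.univ := by
    refine Set.eq_univ_of_forall fun X => ?_
    rw [mem_Opn_iff_Cov]
    exact ⟨M, by simpa using hM (pre X M) (length_pre _ _)⟩
  have h2 := coin_US
  rw [h1, measure_univ] at h2
  have : (2⁻¹ : ℝ≥0∞) < 1 := by
    rw [ENNReal.inv_lt_one]; norm_num
  exact absurd h2 (not_le.2 this)

open Classical in
/-- the leftmost path, as a sequence of strings -/
noncomputable def PP : ℕ → List Bool
  | 0 => []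
  | n + 1 => PP n ++ [decide (Full (PP n ++ [false]))]

open Classical in
/-- the leftmost path -/
noncomputable def Om (n : ℕ) : Bool := decide (Full (PP n ++ [false]))

theorem pre_Om (n : ℕ) : pre Om n = PP n := by
  induction n with
  | zero => rfl
  | succ n ih => rw [pre_succ, ih]; rfl

theorem not_full_PP (n : ℕ) : ¬ Full (PP n) := by
  classical
  induction n with
  | zero => exact not_full_nil
  | succ n ih =>
    change ¬ Full (PP n ++ [decide (Full (PP n ++ [false]))])
    by_cases h : Full (PP n ++ [false])
    · rw [decide_eq_true h]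
      exact fun h' => ih (full_of_both h h')
    · rw [decide_eq_false h]
      exact h

theorem Om_not_mem : Om ∉ Opn US := by
  intro h
  rw [mem_Opn] at h
  obtain ⟨s, hs, hp⟩ := h
  apply not_full_PP s.length
  rw [← pre_Om, hp, full_iff]
  exact ⟨0, fun t ht => ⟨s, hs, List.prefix_append _ _⟩⟩

theorem length_PP (n : ℕ) : (PP n).length = n := by rw [← pre_Om, length_pre]

theorem leftmost (n : ℕ) : ∀ b < num (PP n), Full (bits n b) := by
  classical
  induction n with
  | zero => simp [PP]
  | succ n ih =>
    intro b hb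
    have h1 : PP (n + 1) = PP n ++ [Om n] := rfl
    rw [h1, num_concat] at hb
    rw [bits_succ]
    rcases Nat.lt_or_ge (b / 2) (num (PP n)) with h2 | h2
    · exact full_ext _ (ih _ h2)
    · have hbit : Om n = true := by
        cases h : Om n with
        | true => rfl
        | false => rw [h] at hb; simp only [Bool.toNat_false] at hb; omega
      have h3 : b = 2 * num (PP n) := by
        rw [hbit] at hb; simp only [Bool.toNat_true] at hb; omega
      have h4 : b / 2 = num (PP n) := by omega
      have h5 : decide (b % 2 = 1) = false := by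
        rw [decide_eq_false_iff_not]; omega
      have h6 : bits n (num (PP n)) = PP n := by
        have := bits_num (PP n)
        rwa [length_PP] at this
      rw [h4, h5, h6]
      unfold Om at hbit
      exact of_decide_eq_true hbit

theorem leftCE_Om : LeftCE Om := by
  unfold LeftCE
  have h1 : REPred fun r : ℕ × ℕ => ∃ x : ℕ × ℕ, r.1 * 2 ^ x.1 < x.2 * (r.2 + 1) ∧
      ∀ b < x.2, Full (bits x.1 b) := by
    refine RE_exists ?_
    have hn : Computable fun y : (ℕ × ℕ) × (ℕ × ℕ) => y.2.1 := Computable.fst.comp Computable.snd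
    have ha : Computable fun y : (ℕ × ℕ) × (ℕ × ℕ) => y.2.2 := Computable.snd.comp Computable.snd
    have hp : Computable fun y : (ℕ × ℕ) × (ℕ × ℕ) => y.1.1 := Computable.fst.comp Computable.fst
    have hq : Computable fun y : (ℕ × ℕ) × (ℕ × ℕ) => y.1.2 := Computable.snd.comp Computable.fst
    have h2 : ComputablePred fun y : (ℕ × ℕ) × (ℕ × ℕ) => y.1.1 * 2 ^ y.2.1 < y.2.2 * (y.1.2 + 1) :=
      CP_lt (comp_nat_mul hp (comp_pow2.to_comp.comp hn))
        (comp_nat_mul ha (Computable.succ.comp hq))
    refine RE_and h2.to_re (RE_forall_lt ha ?_)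
    exact RE_comp re_Full (comp_bits.comp (hn.comp Computable.fst) Computable.snd)
  refine h1.of_eq fun r => ?_
  have hq0 : (0 : ℝ) < (r.2 : ℝ) + 1 := by positivity
  constructor
  · rintro ⟨⟨n, a⟩, hlt, hfull⟩
    simp only at hlt hfull
    have h2 : a ≤ num (pre Om n) := by
      by_contra hcon
      have h3 := hfull (num (pre Om n)) (not_le.1 hcon)
      have h4 := bits_num (pre Om n)
      rw [length_pre] at h4
      rw [h4, pre_Om] at h3
      exact not_full_PP n h3
    have h5 := num_le_val Om n
    have h6 : (a : ℝ) ≤ 2 ^ n * val Om := le_trans (by exact_mod_cast h2) h5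
    have h7 : (r.1 : ℝ) * 2 ^ n < a * ((r.2 : ℝ) + 1) := by exact_mod_cast hlt
    rw [div_lt_iff₀ hq0]
    have h8 : (0 : ℝ) < 2 ^ n := by positivity
    have h9 : (r.1 : ℝ) * 2 ^ n < (val Om * ((r.2 : ℝ) + 1)) * 2 ^ n := by
      calc (r.1 : ℝ) * 2 ^ n < a * ((r.2 : ℝ) + 1) := h7
        _ ≤ (2 ^ n * val Om) * ((r.2 : ℝ) + 1) := by gcongr
        _ = (val Om * ((r.2 : ℝ) + 1)) * 2 ^ n := by ring
    exact lt_of_mul_lt_mul_right h9 h8.le
  · intro h
    obtain ⟨n, hn⟩ : ∃ n : ℕ, (1 / 2 : ℝ) ^ n < val Om - (r.1 : ℝ) / ((r.2 : ℝ) + 1) :=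
      exists_pow_lt_of_lt_one (by linarith) (by norm_num)
    refine ⟨(n, num (pre Om n)), ?_, ?_⟩
    · simp only
      have h2 := val_le_num Om n
      have h3 : (0 : ℝ) < 2 ^ n := by positivity
      have h4 : (r.1 : ℝ) / ((r.2 : ℝ) + 1) * 2 ^ n < num (pre Om n) := by
        have h5 : (1 / 2 : ℝ) ^ n * 2 ^ n = 1 := by rw [← mul_pow]; norm_num
        nlinarith
      have h6 : (r.1 : ℝ) * 2 ^ n < num (pre Om n) * ((r.2 : ℝ) + 1) := by
        have h7 : (r.1 : ℝ) * 2 ^ n = ((r.1 : ℝ) / ((r.2 : ℝ) + 1) * 2 ^ n) * ((r.2 : ℝ) + 1) := by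
          field_simp
        rw [h7]
        exact mul_lt_mul_of_pos_right h4 hq0
      exact_mod_cast h6
    · intro b hb
      simp only at hb ⊢
      rw [pre_Om] at hb
      exact leftmost n b hb

/-- There is an Omega-number. -/
theorem omega_exists : OmegaNumber Om := ⟨random_of_not_mem_US Om_not_mem, leftCE_Om⟩

end Pool.Agent.OmegaTT
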