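import Mathlib
import Pool.Agent.Lib.MP_a2e505_lc.Strings

/-!
Random sequences meet every computable density-type requirement infinitely often.
-/

namespace Pool.Agent.OmegaTT

open MeasureTheory
open scoped ENNReal

theorem bits_take (L d j : ℕ) (hj : j < 2 ^ (L + d)) : (bits (L + d) j).take L = bits L (j / 2 ^ d) := by
  have h1 : j / 2 ^ d < 2 ^ L := by
    rw [Nat.div_lt_iff_lt_mul (by positivity), ← pow_add]; exact hj
  refine num_inj (by simp) ?_
  rw [num_take _ (by simp), num_bits hj, num_bits h1, length_bits, Nat.add_sub_cancel_left]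

theorem two_mul_pred_pow_le (M : ℕ) (hM : 1 ≤ M) : 2 * (M - 1) ^ M ≤ M ^ M := by
  obtain ⟨a, rfl⟩ : ∃ a, M = a + 1 := ⟨M - 1, by omega⟩
  simp only [Nat.add_sub_cancel]
  rcases Nat.eq_zero_or_pos a with rfl | ha
  · simp
  have h1 : (1 : ℚ) + (a + 1 : ℕ) * (1 / a) ≤ (1 + 1 / a) ^ (a + 1) :=
    one_add_mul_le_pow (by
      have : (0 : ℚ) ≤ 1 / a := by positivity
      linarith) (a + 1)
  have ha' : (0 : ℚ) < a := by exact_mod_cast ha
  have h2 : (2 : ℚ) ≤ (1 + 1 / a) ^ (a + 1) := by
    refine le_trans ?_ h1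
    push_cast
    have : ((a : ℚ) + 1) * (1 / a) = 1 + 1 / a := by field_simp
    rw [this]
    have : (0 : ℚ) ≤ 1 / a := by positivity
    linarith
  have h3 : (2 : ℚ) * a ^ (a + 1) ≤ (a + 1) ^ (a + 1) := by
    calc (2 : ℚ) * a ^ (a + 1) ≤ (1 + 1 / a) ^ (a + 1) * a ^ (a + 1) := by gcongr
      _ = ((1 + 1 / a) * a) ^ (a + 1) := (mul_pow _ _ _).symm
      _ = (a + 1) ^ (a + 1) := by
          congr 1
          field_simp
  exact_mod_cast h3

/-- the strings avoiding `P` along the blocks of length `d` after `t0` -/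
def Avoid (P : List Bool → Prop) (t0 d K : ℕ) (s : List Bool) : Prop :=
  ∀ i < K, ¬ P (s.take (t0 + (i + 1) * d))

theorem cnt_step {P Q : List Bool → Prop} {L d : ℕ}
    (hP : ∀ s : List Bool, s.length = L → ∃ s' : List Bool, s'.length = L + d ∧ s <+: s' ∧ P s') :
    cnt (L + d) (fun s => Q (s.take L) ∧ ¬ P s) ≤ (2 ^ d - 1) * cnt L Q := by
  classical
  set S := (Finset.range (2 ^ (L + d))).filter fun j =>
    (fun s => Q (s.take L) ∧ ¬ P s) (bits (L + d) j) with hS
  have hSc : cnt (L + d) (fun s => Q (s.take L) ∧ ¬ P s) = S.card := by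
    unfold cnt; congr!
  rw [hSc]
  have h1 : S.card ≤ (2 ^ d - 1) * (S.image fun j => j / 2 ^ d).card := by
    refine Finset.card_le_mul_card_image _ _ fun i hi => ?_
    simp only [Finset.mem_image] at hi
    obtain ⟨j0, hj0, hj0i⟩ := hi
    simp only [hS, Finset.mem_filter, Finset.mem_range] at hj0
    have hi2 : i < 2 ^ L := by
      rw [← hj0i, Nat.div_lt_iff_lt_mul (by positivity), ← pow_add]; exact hj0.1
    obtain ⟨s', hs'l, hs'p, hs'P⟩ := hP (bits L i) (length_bits _ _)
    have hnum : num s' / 2 ^ d = i := by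
      have h2 : s'.take L = bits L i := by
        have := List.prefix_iff_eq_take.1 hs'p
        rw [length_bits] at this
        exact this.symm
      have h3 := num_take s' (m := L) (by omega)
      rw [h2, num_bits hi2, hs'l, Nat.add_sub_cancel_left] at h3
      exact h3.symm
    have hsub : (S.filter fun x => x / 2 ^ d = i) ⊆
        (Finset.Ico (i * 2 ^ d) ((i + 1) * 2 ^ d)).erase (num s') := by
      intro j hj
      simp only [hS, Finset.mem_filter, Finset.mem_range] at hj
      obtain ⟨⟨hj1, -, hj2⟩, hj3⟩ := hj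
      rw [Finset.mem_erase, Finset.mem_Ico]
      refine ⟨?_, ?_, ?_⟩
      · rintro rfl
        apply hj2
        rw [← hs'l, bits_num]
        exact hs'P
      · rw [← hj3]; exact Nat.div_mul_le_self _ _
      · rw [← hj3, mul_comm]; exact Nat.lt_mul_div_succ _ (by positivity)
    refine (Finset.card_le_card hsub).trans ?_
    rw [Finset.card_erase_of_mem, Nat.card_Ico, ← Nat.sub_mul]
    · simp
    · rw [Finset.mem_Ico]
      refine ⟨?_, ?_⟩
      · rw [← hnum]; exact Nat.div_mul_le_self _ _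
      · rw [← hnum, mul_comm]; exact Nat.lt_mul_div_succ _ (by positivity)
  refine h1.trans (Nat.mul_le_mul_left _ ?_)
  unfold cnt
  refine Finset.card_le_card ?_
  intro i hi
  simp only [Finset.mem_image] at hi
  obtain ⟨j, hj, rfl⟩ := hi
  simp only [hS, Finset.mem_filter, Finset.mem_range] at hj
  obtain ⟨hj1, hj2, -⟩ := hj
  rw [bits_take L d j hj1] at hj2
  simp only [Finset.mem_filter, Finset.mem_range]
  refine ⟨?_, hj2⟩
  rw [Nat.div_lt_iff_lt_mul (by positivity), ← pow_add]; exact hj1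

theorem cnt_avoid {P : List Bool → Prop} {d : ℕ}
    (hP : ∀ s : List Bool, ∃ s' : List Bool, s'.length = s.length + d ∧ s <+: s' ∧ P s')
    (t0 K : ℕ) : cnt (t0 + K * d) (Avoid P t0 d K) ≤ 2 ^ t0 * (2 ^ d - 1) ^ K := by
  induction K with
  | zero =>
    classical
    unfold cnt
    refine (Finset.card_filter_le _ _).trans ?_
    simp
  | succ K ih =>
    have h1 : cnt (t0 + (K + 1) * d) (Avoid P t0 d (K + 1)) ≤
        cnt ((t0 + K * d) + d) (fun s => Avoid P t0 d K (s.take (t0 + K * d)) ∧ ¬ P s) := by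
      have e : t0 + (K + 1) * d = (t0 + K * d) + d := by ring
      rw [e]
      unfold cnt
      classical
      refine Finset.card_le_card fun j hj => ?_
      simp only [Finset.mem_filter, Finset.mem_range] at hj ⊢
      refine ⟨hj.1, ?_, ?_⟩
      · intro i hi
        rw [List.take_take, min_eq_left]
        · exact hj.2 i (by omega)
        · have : (i + 1) * d ≤ K * d := Nat.mul_le_mul_right _ hi
          omega
      · have := hj.2 K (by omega)
        rwa [e, List.take_of_length_le (by simp)] at this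
    refine h1.trans ((cnt_step (fun s hs => ?_)).trans ?_)
    · obtain ⟨s', h2, h3, h4⟩ := hP s
      exact ⟨s', by omega, h3, h4⟩
    · calc (2 ^ d - 1) * cnt (t0 + K * d) (Avoid P t0 d K)
          ≤ (2 ^ d - 1) * (2 ^ t0 * (2 ^ d - 1) ^ K) := Nat.mul_le_mul_left _ ih
        _ = 2 ^ t0 * (2 ^ d - 1) ^ (K + 1) := by rw [pow_succ]; ring

/-- **Pattern lemma.** -/
theorem MLRandom.pattern {X : ℕ → Bool} (hX : MLRandom X) {P : List Bool → Prop}
    (hPc : ComputablePred P) {d : ℕ}
    (hP : ∀ s : List Bool, ∃ s' : List Bool, s'.length = s.length + d ∧ s <+: s' ∧ P s')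
    (t0 : ℕ) : ∃ i, P (pre X (t0 + (i + 1) * d)) := by
  by_contra hcon
  push Not at hcon
  let V : ℕ → List Bool → Prop := fun k s =>
    s.length = t0 + (k * 2 ^ d) * d ∧ Avoid P t0 d (k * 2 ^ d) s
  have hV : IsMLTest V := by
    constructor
    · refine ComputablePred.to_re (CP_and (CP_eq ?_ ?_) ?_)
      · exact Computable.list_length.comp Computable.snd
      · exact comp_nat_add (Computable.const _) (comp_nat_mul (comp_nat_mul Computable.fst
          (Computable.const _)) (Computable.const _))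
      · unfold Avoid
        refine CP_forall_lt (comp_nat_mul Computable.fst (Computable.const _)) (CP_not ?_)
        refine CP_comp hPc (comp_take.comp ?_ (Computable.snd.comp Computable.fst))
        exact comp_nat_add (Computable.const _) (comp_nat_mul (Computable.succ.comp Computable.snd)
          (Computable.const _))
    · intro k
      change coin (Opn (V k)) ≤ _
      have h1 : Opn (V k) ⊆ {Y | (Avoid P t0 d (k * 2 ^ d)) (pre Y (t0 + (k * 2 ^ d) * d))} := by
        intro Y hY
        rw [mem_Opn] at hY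
        obtain ⟨s, ⟨hs1, hs2⟩, hs3⟩ := hY
        change Avoid P t0 d (k * 2 ^ d) (pre Y (t0 + (k * 2 ^ d) * d))
        rw [← hs1, hs3]; exact hs2
      refine (measure_mono h1).trans ?_
      rw [coin_level, ennreal_half_pow_le]
      have h2 := cnt_avoid hP t0 (k * 2 ^ d)
      have h3 := two_mul_pred_pow_le (2 ^ d) Nat.one_le_two_pow
      calc cnt (t0 + k * 2 ^ d * d) (Avoid P t0 d (k * 2 ^ d)) * 2 ^ k
          ≤ (2 ^ t0 * (2 ^ d - 1) ^ (k * 2 ^ d)) * 2 ^ k := Nat.mul_le_mul_right _ h2
        _ = 2 ^ t0 * (2 * (2 ^ d - 1) ^ (2 ^ d)) ^ k := by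
            rw [mul_comm k, pow_mul, mul_pow]; ring
        _ ≤ 2 ^ t0 * ((2 ^ d) ^ (2 ^ d)) ^ k := by gcongr
        _ = 2 ^ (t0 + k * 2 ^ d * d) := by
            rw [pow_add, ← pow_mul, ← pow_mul]; ring_nf
  obtain ⟨k, hk⟩ := hX V hV
  change X ∉ Opn (V k) at hk
  apply hk
  rw [mem_Opn]
  refine ⟨pre X (t0 + (k * 2 ^ d) * d), ⟨by simp, ?_⟩, by simp⟩
  intro i hi
  rw [pre_take X]
  · exact hcon i
  · have : (i + 1) * d ≤ (k * 2 ^ d) * d := Nat.mul_le_mul_right _ hi
    omega

end Pool.Agent.OmegaTT
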