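import Mathlib
import Pool.Agent.Lib.MP_a2e505_lc.ChainRE

/-!
Truth-table reductions in normal form, and the general symmetry theorem.
-/

namespace Pool.Agent.OmegaTT

open MeasureTheory
open scoped ENNReal

/-- the total functional given by a truth-table -/
def ev (f : ℕ → List ℕ × List (List Bool)) (X : ℕ → Bool) (n : ℕ) : Bool :=
  decide ((f n).1.map X ∈ (f n).2)

theorem comp_list_sum {α : Type*} [Primcodable α] {f : α → List ℕ} (hf : Computable f) :
    Computable fun a => (f a).sum := by
  have h : Computable fun a => (f a).foldl (fun (s : ℕ) b => s + b) 0 := by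
    refine comp_list_foldl (h := fun _ (p : ℕ × ℕ) => p.1 + p.2) hf (Computable.const _) ?_
    exact comp_nat_add (Computable.fst.comp Computable.snd) (Computable.snd.comp Computable.snd)
  refine h.of_eq fun a => ?_
  have key : ∀ (l : List ℕ) (s : ℕ), l.foldl (fun (s : ℕ) b => s + b) s = s + l.sum := by
    intro l
    induction l with
    | nil => simp
    | cons b l ih => intro s; simp [ih]; ring
  simpa using key (f a) 0

/-- a bound for the positions queried by the first `k` table entries -/
def useB (f : ℕ → List ℕ × List (List Bool)) (k : ℕ) : ℕ :=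
  ((List.range k).map fun i => ((f i).1.map Nat.succ).sum).sum

theorem lt_useB {f : ℕ → List ℕ × List (List Bool)} {k i p : ℕ} (hi : i < k)
    (hp : p ∈ (f i).1) : p < useB f k := by
  have h1 : p + 1 ≤ ((f i).1.map Nat.succ).sum :=
    List.single_le_sum (fun _ _ => Nat.zero_le _) _ (List.mem_map.2 ⟨p, hp, rfl⟩)
  have h2 : ((f i).1.map Nat.succ).sum ≤ useB f k :=
    List.single_le_sum (fun _ _ => Nat.zero_le _) _
      (List.mem_map.2 ⟨i, List.mem_range.2 hi, rfl⟩)
  omega

theorem comp_useB {f : ℕ → List ℕ × List (List Bool)} (hf : Computable f) :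
    Computable (useB f) := by
  unfold useB
  refine comp_list_sum (comp_list_map (comp_list_range Computable.id) ?_)
  refine comp_list_sum (comp_list_map (Computable.fst.comp (hf.comp Computable.snd)) ?_)
  exact Computable.succ.comp Computable.snd

theorem ev_congr {f : ℕ → List ℕ × List (List Bool)} {X Y : ℕ → Bool} {k : ℕ}
    (h : pre X (useB f k) = pre Y (useB f k)) : pre (ev f X) k = pre (ev f Y) k := by
  rw [pre_eq_iff] at h ⊢
  intro i hi
  unfold ev
  have : (f i).1.map X = (f i).1.map Y := List.map_congr_left fun p hp => h p (lt_useB hi hp)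
  rw [this]

theorem comp_ext : Computable₂ fun (s : List Bool) (i : ℕ) => ext s i :=
  (Primrec.list_getD false).to_comp

theorem comp_map_ext {α : Type*} [Primcodable α] {g : α → List ℕ} {s : α → List Bool}
    (hg : Computable g) (hs : Computable s) : Computable fun x => (g x).map (ext (s x)) :=
  comp_list_map (g := fun x i => ext (s x) i) hg
    (comp_ext.comp (hs.comp Computable.fst) Computable.snd)

theorem CP_mem {α β : Type*} [Primcodable α] [Primcodable β] {g : α → List β} {s : α → β}
    (hg : Computable g) (hs : Computable s) : ComputablePred fun x => s x ∈ g x :=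
  (CP_exists_list (p := fun x r => r = s x) hg (CP_eq Computable.snd (hs.comp Computable.fst))).of_eq
    fun x => by simp

theorem comp_ev0 {f : ℕ → List ℕ × List (List Bool)} (hf : Computable f) :
    Computable₂ fun (s : List Bool) (i : ℕ) => ev f (ext s) i := by
  have h1 : Computable fun x : List Bool × ℕ => (f x.2).1.map (ext x.1) :=
    comp_map_ext (Computable.fst.comp (hf.comp Computable.snd)) Computable.fst
  have h2 : ComputablePred fun x : List Bool × ℕ => (f x.2).1.map (ext x.1) ∈ (f x.2).2 :=
    CP_mem (Computable.snd.comp (hf.comp Computable.snd)) h1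
  exact h2.decide

theorem comp_ev {f : ℕ → List ℕ × List (List Bool)} (hf : Computable f) :
    Computable₂ fun (n : ℕ) (s : List Bool) => pre (ev f (ext s)) n := by
  unfold pre
  refine comp_list_map (g := fun (x : ℕ × List Bool) (i : ℕ) => ev f (ext x.2) i)
    (comp_list_range Computable.fst) ?_
  exact (comp_ev0 hf).comp (Computable.snd.comp Computable.fst) Computable.snd

theorem cnt_mono {L : ℕ} {P Q : List Bool → Prop} (h : ∀ s, s.length = L → P s → Q s) :
    cnt L P ≤ cnt L Q := by
  classical
  unfold cnt
  refine Finset.card_le_card fun j hj => ?_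
  simp only [Finset.mem_filter, Finset.mem_range] at hj ⊢
  exact ⟨hj.1, h _ (length_bits _ _) hj.2⟩

theorem cnt_add_le {L : ℕ} {P P' Q : List Bool → Prop}
    (h : ∀ s, s.length = L → P s → Q s) (h' : ∀ s, s.length = L → P' s → Q s)
    (hd : ∀ s, s.length = L → P s → P' s → False) :
    cnt L P + cnt L P' ≤ cnt L Q := by
  classical
  unfold cnt
  rw [← Finset.card_union_of_disjoint]
  · refine Finset.card_le_card fun j hj => ?_
    simp only [Finset.mem_filter, Finset.mem_range, Finset.mem_union] at hj ⊢
    rcases hj with hj | hj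
    · exact ⟨hj.1, h _ (length_bits _ _) hj.2⟩
    · exact ⟨hj.1, h' _ (length_bits _ _) hj.2⟩
  · refine Finset.disjoint_left.2 fun j hj hj' => ?_
    simp only [Finset.mem_filter, Finset.mem_range] at hj hj'
    exact hd _ (length_bits _ _) hj.2 hj'.2

/-- building a truth-table reduction from a computable decision procedure with computable use -/
theorem tt_of_dec {A B : ℕ → Bool} {w : ℕ → ℕ} (hw : Computable w) {D : ℕ → List Bool → Prop}
    (hD : ComputablePred fun x : ℕ × List Bool => D x.1 x.2)
    (h : ∀ j, A j = true ↔ D j (pre B (w j))) : TTReducible A B := by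
  classical
  refine ⟨fun j => (List.range (w j),
    ((List.range (2 ^ w j)).map (bits (w j))).filter fun r => decide (D j r)), ?_, fun n => ?_⟩
  · refine Computable.pair (comp_list_range hw) (comp_list_filter ?_ ?_)
    · refine comp_list_map (comp_list_range (comp_pow2.to_comp.comp hw)) ?_
      exact comp_bits.comp (hw.comp Computable.fst) Computable.snd
    · exact hD.decide
  · rw [h n]
    simp only [List.mem_filter, List.mem_map, List.mem_range, decide_eq_true_eq]
    change D n (pre B (w n)) ↔ (∃ a, a < 2 ^ w n ∧ bits (w n) a = pre B (w n)) ∧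
      D n (pre B (w n))
    constructor
    · intro hD'
      refine ⟨⟨num (pre B (w n)), ?_, ?_⟩, hD'⟩
      · simpa using num_lt (pre B (w n))
      · simpa using bits_num (pre B (w n))
    · exact fun hD' => hD'.2

/-- the chain data for a truth-table functional and a wtt decoder -/
noncomputable def ttData (f : ℕ → List ℕ × List (List Bool)) (hf : Computable f) (m : ℕ → ℕ)
    (hm : Computable m) (hmm : Monotone m) (G : ℕ → List Bool → List Bool → Prop)
    (hGre : REPred fun r : ℕ × List Bool × List Bool => G r.1 r.2.1 r.2.2)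
    (hGs : ∀ n a s s', G n a s → G n a s' → s = s') (n0 p q : ℕ) : ChainData where
  A := fun n X => pre (ev f X) (m n)
  U := fun n => n + useB f (m n)
  G := G
  n0 := n0
  p := p
  q := q
  hU := comp_nat_add Computable.id ((comp_useB hf).comp hm)
  hUn := fun n => Nat.le_add_right _ _
  hAc := (comp_ev hf).comp (hm.comp Computable.fst) Computable.snd
  hA1 := fun n X Y h => ev_congr (pre_eq_of_le (Nat.le_add_left _ _) h)
  hA2 := fun j n X Y hj h => pre_eq_of_le (hmm hj) h
  hGre := hGre
  hGs := hGs

theorem ev_eq_of_tt {A B : ℕ → Bool} {f : ℕ → List ℕ × List (List Bool)}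
    (h : ∀ n : ℕ, A n = true ↔ (f n).1.map B ∈ (f n).2) : ev f B = A := by
  funext n
  unfold ev
  rw [Bool.eq_iff_iff, decide_eq_true_iff]
  exact (h n).symm

/-- **General symmetry theorem.** If `β` is Martin-Löf random, `α ≤_tt β`, and `β` can be decoded
from `α` by a partial computable procedure with computable use (`β ≤_wtt α`), then `β ≤_tt α`. -/
theorem tt_symm {α β : ℕ → Bool} (hβ : MLRandom β) (htt : TTReducible α β)
    {m : ℕ → ℕ} (hm : Computable m) (hmm : Monotone m) {G : ℕ → List Bool → List Bool → Prop}
    (hGre : REPred fun r : ℕ × List Bool × List Bool => G r.1 r.2.1 r.2.2)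
    (hGs : ∀ n a s s', G n a s → G n a s' → s = s') {n0 : ℕ}
    (hG : ∀ n, n0 ≤ n → G n (pre α (m n)) (pre β n)) : TTReducible β α := by
  classical
  obtain ⟨f, hf, hfα⟩ := htt
  have hev := ev_eq_of_tt hfα
  let D := ttData f hf m hm hmm G hGre hGs n0 1 2
  have hA : ∀ n, D.A n β = pre α (m n) := fun n => by
    change pre (ev f β) (m n) = _
    rw [hev]
  obtain ⟨n', N, -, hn'N, hmain⟩ := D.chain_main (c := 1) (by decide : 0 < 2)
    (by decide : 2 * 1 ^ 1 ≤ 2 ^ 1) hβ (fun n hn => by rw [hA]; exact hG n hn)
  simp only [hA] at hmain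
  have hp : D.p = 1 := rfl
  have hq : D.q = 2 := rfl
  simp only [hp, hq, one_mul] at hmain
  -- decision procedure
  let P : ℕ → List Bool → List Bool → Prop := fun n a s =>
    D.W n n' a (pre β n') < 2 * D.W n n a s ∧ s.take n' = pre β n'
  have huniq : ∀ n a s t, n' ≤ n → P n a s → P n a t → s = t := by
    intro n a s t hn hs ht
    by_contra hne
    have h1 : D.W n n a s + D.W n n a t ≤ D.W n n' a (pre β n') := by
      refine cnt_add_le ?_ ?_ ?_
      · rintro τ - ⟨h1, h2⟩
        refine ⟨h1, ?_⟩
        rw [← hs.2, ← h2, List.take_take, min_eq_left hn]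
      · rintro τ - ⟨h1, h2⟩
        refine ⟨h1, ?_⟩
        rw [← ht.2, ← h2, List.take_take, min_eq_left hn]
      · rintro τ - ⟨-, h2⟩ ⟨-, h3⟩
        exact hne (h2.symm.trans h3)
    have h2 := hs.1
    have h3 := ht.1
    omega
  have hβP : ∀ n > N, P n (pre α (m n)) (pre β n) := by
    intro n hn
    exact ⟨hmain n hn, pre_take β (by omega)⟩
  have hcomp : ComputablePred fun x : ℕ × List Bool =>
      ∃ i < 2 ^ (x.1 + N + 1), P (x.1 + N + 1) x.2 (bits (x.1 + N + 1) i) ∧
        (bits (x.1 + N + 1) i).getD x.1 false = true := by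
    have hn : Computable fun x : ℕ × List Bool => x.1 + N + 1 :=
      Computable.succ.comp (comp_nat_add Computable.fst (Computable.const N))
    have hn1 : Computable fun y : (ℕ × List Bool) × ℕ => y.1.1 + N + 1 := hn.comp Computable.fst
    have hb : Computable fun y : (ℕ × List Bool) × ℕ => bits (y.1.1 + N + 1) y.2 :=
      comp_bits.comp hn1 Computable.snd
    have ha : Computable fun y : (ℕ × List Bool) × ℕ => y.1.2 :=
      Computable.snd.comp Computable.fst
    refine CP_exists_lt (comp_pow2.to_comp.comp hn) (CP_and (CP_and (CP_lt ?_ ?_) (CP_eq ?_ ?_)) ?_)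
    · exact D.comp_W' hn1 (Computable.const _) ha (Computable.const _)
    · exact comp_nat_mul (Computable.const 2) (D.comp_W' hn1 hn1 ha hb)
    · exact comp_take.comp (Computable.const _) hb
    · exact Computable.const _
    · exact CP_bool ((Primrec.list_getD false).to_comp.comp hb (Computable.fst.comp Computable.fst))
  refine tt_of_dec (w := fun j => m (j + N + 1)) (D := fun j a =>
    ∃ i < 2 ^ (j + N + 1), P (j + N + 1) a (bits (j + N + 1) i) ∧
        (bits (j + N + 1) i).getD j false = true) (hm.comp (Computable.succ.comp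
    (comp_nat_add Computable.id (Computable.const N)))) hcomp fun j => ?_
  have hPj := hβP (j + N + 1) (by omega)
  constructor
  · intro hj
    refine ⟨num (pre β (j + N + 1)), ?_, ?_, ?_⟩
    · simpa using num_lt (pre β (j + N + 1))
    · have := bits_num (pre β (j + N + 1))
      rw [length_pre] at this
      rw [this]; exact hPj
    · have := bits_num (pre β (j + N + 1))
      rw [length_pre] at this
      rw [this, pre_getD β (by omega)]; exact hj
  · rintro ⟨i, -, hP, hbit⟩
    have := huniq _ _ _ _ (by omega) hP hPj
    rw [this, pre_getD β (by omega)] at hbit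
    exact hbit

end Pool.Agent.OmegaTT
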