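import Mathlib
import Pool.Agent.Lib.MP_a2e505_lc.Pattern
import Pool.Agent.Lib.MP_a2e505_lc.ChainRE
import Pool.Agent.Lib.MP_a2e505_lc.Val

/-!
Division by three: from an Omega-number `X` we get the Omega-number `X / 3`, which is strictly
below `X` in the strong weak truth-table reducibility.
-/

namespace Pool.Agent.OmegaTT

open MeasureTheory
open scoped ENNReal

/-- the binary expansion of a third of the real with expansion `X` -/
def third (X : ℕ → Bool) (n : ℕ) : Bool := decide ((num (pre X (n + 1)) / 3) % 2 = 1)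

theorem num_pre_third (X : ℕ → Bool) (n : ℕ) : num (pre (third X) n) = num (pre X n) / 3 := by
  induction n with
  | zero => simp
  | succ n ih =>
    rw [pre_succ, num_concat, ih]
    unfold third
    have h : num (pre X (n + 1)) = 2 * num (pre X n) + (X n).toNat := by
      rw [pre_succ, num_concat]
    rw [h]
    have hb : (X n).toNat ≤ 1 := by cases X n <;> simp
    by_cases hd : ((2 * num (pre X n) + (X n).toNat) / 3) % 2 = 1
    · simp only [hd, decide_true, Bool.toNat_true]; omega
    · simp only [hd, decide_false, Bool.toNat_false]; omega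

theorem pre_third (X : ℕ → Bool) (n : ℕ) : pre (third X) n = bits n (num (pre X n) / 3) := by
  rw [← num_pre_third]
  simpa using (bits_num (pre (third X) n)).symm

theorem third_congr {X Y : ℕ → Bool} {n : ℕ} (h : pre X n = pre Y n) :
    pre (third X) n = pre (third Y) n := by rw [pre_third, pre_third, h]

theorem val_third (X : ℕ → Bool) : val (third X) = val X / 3 := by
  have key : ∀ n : ℕ, |3 * val (third X) - val X| ≤ 4 * (1 / 2 : ℝ) ^ n := by
    intro n
    have h1 := num_le_val (third X) n
    have h2 := val_le_num (third X) n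
    have h3 := num_le_val X n
    have h4 := val_le_num X n
    rw [num_pre_third] at h1 h2
    have h5 : ((num (pre X n) / 3 : ℕ) : ℝ) * 3 ≤ num (pre X n) := by
      exact_mod_cast Nat.div_mul_le_self _ _
    have h6 : (num (pre X n) : ℝ) ≤ ((num (pre X n) / 3 : ℕ) : ℝ) * 3 + 2 := by
      have : num (pre X n) ≤ (num (pre X n) / 3) * 3 + 2 := by omega
      exact_mod_cast this
    have h7 : |2 ^ n * (3 * val (third X) - val X)| ≤ 4 := by
      rw [abs_le]
      constructor
      · linarith
      · linarith
    have h8 : (0 : ℝ) < 2 ^ n := by positivity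
    rw [abs_mul, abs_of_pos h8] at h7
    rw [one_div, inv_pow, ← div_eq_mul_inv, le_div_iff₀ h8]
    linarith
  have h9 : |3 * val (third X) - val X| ≤ 0 := by
    refine ge_of_tendsto' (x := Filter.atTop) (f := fun n : ℕ => 4 * (1 / 2 : ℝ) ^ n) ?_ key
    have := (tendsto_pow_atTop_nhds_zero_of_lt_one (r := (1 / 2 : ℝ)) (by norm_num)
      (by norm_num)).const_mul 4
    simpa using this
  have h10 : 3 * val (third X) - val X = 0 := abs_nonpos_iff.1 h9
  linarith

theorem LeftCE_third {X : ℕ → Bool} (h : LeftCE X) : LeftCE (third X) := by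
  unfold LeftCE at h ⊢
  have hc : Computable fun r : ℕ × ℕ => (3 * r.1, r.2) :=
    (comp_nat_mul (Computable.const 3) Computable.fst).pair Computable.snd
  refine (RE_comp h hc).of_eq fun r => ?_
  rw [val_third]
  push_cast
  rw [lt_div_iff₀ (by norm_num)]
  have : (3 * (r.1 : ℝ)) / ((r.2 : ℝ) + 1) = (r.1 : ℝ) / ((r.2 : ℝ) + 1) * 3 := by ring
  rw [this]

theorem MLRandom_third {X : ℕ → Bool} (hX : MLRandom X) : MLRandom (third X) := by
  intro U hU
  let V : ℕ → List Bool → Prop := fun k s => U (k + 2) (bits s.length (num s / 3))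
  have hV : IsMLTest V := by
    constructor
    · refine RE_comp hU.1 (f := fun r : ℕ × List Bool => (r.1 + 2, bits r.2.length (num r.2 / 3)))
        ?_
      refine Computable.pair (comp_nat_add Computable.fst (Computable.const 2)) ?_
      exact comp_bits.comp (Computable.list_length.comp Computable.snd)
        (comp_nat_div (comp_num.comp Computable.snd) (Computable.const 3))
    · intro k
      have h1 := hU.2 (k + 2)
      change coin (Opn (U (k + 2))) ≤ _ at h1
      change coin (Opn (V k)) ≤ _
      rw [coin_Opn_le_iff] at h1 ⊢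
      intro L
      have h2 := h1 L
      have h3 : cnt L (Cov (V k)) ≤ 3 * cnt L (Cov (U (k + 2))) := by
        classical
        unfold cnt
        have himg : (((Finset.range (2 ^ L)).filter fun j => Cov (V k) (bits L j)).image
            fun j => j / 3) ⊆ (Finset.range (2 ^ L)).filter fun j => Cov (U (k + 2)) (bits L j) := by
          intro i hi
          simp only [Finset.mem_image, Finset.mem_filter, Finset.mem_range] at hi ⊢
          obtain ⟨j, ⟨hj1, s, hs1, hs2⟩, rfl⟩ := hi
          refine ⟨by omega, bits s.length (num s / 3), hs1, ?_⟩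
          have hsl : s.length ≤ L := by simpa using hs2.length_le
          have e1 : s = (bits L j).take s.length := List.prefix_iff_eq_take.1 hs2
          have e2 : num s = j / 2 ^ (L - s.length) := by
            conv_lhs => rw [e1]
            rw [num_take _ (by simpa using hsl), length_bits, num_bits hj1]
          have e3 : bits s.length (num s / 3) = (bits L (j / 3)).take s.length := by
            refine num_inj (by simp [hsl]) ?_
            have e4 : num s / 3 < 2 ^ s.length := lt_of_le_of_lt (Nat.div_le_self _ _) (num_lt s)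
            have e5 : j / 3 < 2 ^ L := lt_of_le_of_lt (Nat.div_le_self _ _) hj1
            rw [num_take _ (by simpa using hsl), length_bits, num_bits e4, num_bits e5, e2,
              Nat.div_div_eq_div_mul, Nat.div_div_eq_div_mul, mul_comm]
          rw [e3]; exact List.take_prefix _ _
        refine le_trans ?_ (Nat.mul_le_mul_left 3 (Finset.card_le_card himg))
        refine Finset.card_le_mul_card_image _ _ fun i _ => ?_
        have hsub : (((Finset.range (2 ^ L)).filter fun j => Cov (V k) (bits L j)).filter
            fun j => j / 3 = i) ⊆ Finset.Ico (3 * i) (3 * i + 3) := by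
          intro j hj
          simp only [Finset.mem_filter, Finset.mem_range] at hj
          rw [Finset.mem_Ico]
          omega
        refine (Finset.card_le_card hsub).trans ?_
        simp
      have h4 : cnt L (Cov (U (k + 2))) * 2 ^ (k + 2) = 4 * (cnt L (Cov (U (k + 2))) * 2 ^ k) := by
        rw [pow_add]; ring
      rw [h4] at h2
      have h5 : cnt L (Cov (V k)) * 2 ^ k ≤ 3 * cnt L (Cov (U (k + 2))) * 2 ^ k :=
        Nat.mul_le_mul_right _ h3
      have h6 : 3 * cnt L (Cov (U (k + 2))) * 2 ^ k = 3 * (cnt L (Cov (U (k + 2))) * 2 ^ k) := by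
        ring
      omega
  obtain ⟨k, hk⟩ := hX V hV
  refine ⟨k + 2, fun hcon => hk ?_⟩
  change third X ∈ Opn (U (k + 2)) at hcon
  change X ∈ Opn (V k)
  rw [mem_Opn] at hcon ⊢
  obtain ⟨s, hs1, hs2⟩ := hcon
  refine ⟨pre X s.length, ?_, by simp⟩
  change U (k + 2) (bits (pre X s.length).length (num (pre X s.length) / 3))
  rw [length_pre, ← pre_third, hs2]
  exact hs1

theorem sw_third (X : ℕ → Bool) : SWReducible (third X) X := by
  refine ⟨0, fun x => Part.some (decide ((num x.2 / 3) % 2 = 1)), ?_, fun n => ?_⟩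
  · have : ComputablePred fun x : ℕ × List Bool => (num x.2 / 3) % 2 = 1 :=
      CP_eq (comp_nat_mod (comp_nat_div (comp_num.comp Computable.snd) (Computable.const 3))
        (Computable.const 2)) (Computable.const 1)
    exact this.decide
  · simp [third]

/-! ### Non-reducibility -/

/-- decoding relation coming from a (hypothetical) reduction -/
def GS (φ : ℕ × List Bool →. Bool) (c n : ℕ) (a s : List Bool) : Prop :=
  s.length = n ∧ ∀ i < n, s.getD i false ∈ φ (i, a.take (i + c + 1))

theorem GS_unique {φ : ℕ × List Bool →. Bool} {c : ℕ} (n : ℕ) (a s s' : List Bool)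
    (h : GS φ c n a s) (h' : GS φ c n a s') : s = s' := by
  obtain ⟨h1, h2⟩ := h
  obtain ⟨h1', h2'⟩ := h'
  apply List.ext_getElem (by omega)
  intro i hi hi'
  have e1 := h2 i (by omega)
  have e2 := h2' i (by omega)
  have e3 := Part.mem_unique e1 e2
  simpa [List.getD_eq_getElem?_getD, hi, hi'] using e3

theorem re_mem {α β : Type*} [Primcodable α] [Primcodable β] {φ : α →. β} (hφ : Partrec φ) :
    REPred fun x : α × β => x.2 ∈ φ x.1 := by
  classical
  have h1 : Partrec fun x : α × β => (φ x.1).bind fun b =>
      (if b = x.2 then Part.some () else Part.none) := by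
    refine Partrec.bind (hφ.comp Computable.fst) ?_
    have h2 : REPred fun y : (α × β) × β => y.2 = y.1.2 :=
      ComputablePred.to_re (CP_eq Computable.snd (Computable.snd.comp Computable.fst))
    refine Partrec.of_eq h2 fun y => ?_
    by_cases h : y.2 = y.1.2
    · simp [h, Part.assert_pos]
    · simp [h, Part.assert_neg]
  refine h1.dom_re.of_eq fun x => ?_
  rw [Part.dom_iff_mem]
  constructor
  · rintro ⟨u, hu⟩
    rw [Part.mem_bind_iff] at hu
    obtain ⟨b, hb, hb2⟩ := hu
    by_cases h : b = x.2
    · rw [← h]; exact hb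
    · simp [h] at hb2
  · intro h
    exact ⟨(), Part.mem_bind_iff.2 ⟨x.2, h, by simp⟩⟩

theorem GS_aux1 (c : ℕ) : Computable fun y : (ℕ × List Bool × List Bool) × ℕ =>
    (y.2, y.1.2.1.take (y.2 + c + 1)) := by
  have hi : Computable fun y : (ℕ × List Bool × List Bool) × ℕ => y.2 := Computable.snd
  have ha : Computable fun y : (ℕ × List Bool × List Bool) × ℕ => y.1.2.1 :=
    Computable.fst.comp (Computable.snd.comp Computable.fst)
  have hb : Computable fun y : (ℕ × List Bool × List Bool) × ℕ => y.2 + c + 1 :=
    Computable.succ.comp (comp_nat_add hi (Computable.const c))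
  have hc : Computable fun y : (ℕ × List Bool × List Bool) × ℕ => y.1.2.1.take (y.2 + c + 1) :=
    comp_take.comp hb ha
  exact Computable.pair hi hc

theorem GS_aux2 : Computable fun y : (ℕ × List Bool × List Bool) × ℕ =>
    y.1.2.2.getD y.2 false := by
  have hs : Computable fun y : (ℕ × List Bool × List Bool) × ℕ => y.1.2.2 :=
    Computable.snd.comp (Computable.snd.comp Computable.fst)
  exact (Primrec.list_getD false).to_comp.comp hs Computable.snd

theorem GS_aux3 (c : ℕ) : Computable fun y : (ℕ × List Bool × List Bool) × ℕ =>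
    ((y.2, y.1.2.1.take (y.2 + c + 1)), y.1.2.2.getD y.2 false) :=
  (GS_aux1 c).pair GS_aux2

theorem RE_comp' {α β : Type*} [Primcodable α] [Primcodable β] {p : β → Prop} {q : α → Prop}
    (f : α → β) (hp : REPred p) (hf : Computable f) (h : ∀ a, q a ↔ p (f a)) : REPred q :=
  (RE_comp hp hf).of_eq fun a => (h a).symm

theorem GS_aux4 {φ : ℕ × List Bool →. Bool} (hφ : Partrec φ) (c : ℕ) :
    REPred fun y : (ℕ × List Bool × List Bool) × ℕ =>
      y.1.2.2.getD y.2 false ∈ φ (y.2, y.1.2.1.take (y.2 + c + 1)) :=
  RE_comp' _ (re_mem hφ) (GS_aux3 c) (fun _ => Iff.rfl)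

theorem re_GS {φ : ℕ × List Bool →. Bool} (hφ : Partrec φ) (c : ℕ) :
    REPred fun r : ℕ × List Bool × List Bool => GS φ c r.1 r.2.1 r.2.2 := by
  have h2 : REPred fun r : ℕ × List Bool × List Bool =>
      ∀ i < r.1, r.2.2.getD i false ∈ φ (i, r.2.1.take (i + c + 1)) :=
    RE_forall_lt (f := fun r : ℕ × List Bool × List Bool => r.1)
      (p := fun (r : ℕ × List Bool × List Bool) (i : ℕ) =>
        r.2.2.getD i false ∈ φ (i, r.2.1.take (i + c + 1))) Computable.fst (GS_aux4 hφ c)
  have h3 : ComputablePred fun r : ℕ × List Bool × List Bool => r.2.2.length = r.1 :=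
    CP_eq (Computable.list_length.comp (Computable.snd.comp Computable.snd)) Computable.fst
  exact RE_and h3.to_re h2

theorem comp_third_pre : Computable₂ fun (n : ℕ) (s : List Bool) => pre (third (ext s)) n := by
  have h : Computable fun x : ℕ × List Bool => bits x.1 (num (pre (ext x.2) x.1) / 3) := by
    refine comp_bits.comp Computable.fst (comp_nat_div (comp_num.comp ?_) (Computable.const 3))
    exact comp_pre_ext.comp Computable.snd Computable.fst
  exact h.of_eq fun x => (pre_third _ _).symm

/-- chain data for the map `X ↦ X/3` -/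
noncomputable def thirdData {φ : ℕ × List Bool →. Bool} (hφ : Partrec φ) (c : ℕ) : ChainData where
  A := fun n X => pre (third X) (n + c)
  U := fun n => n + c
  G := GS φ c
  n0 := 0
  p := 2
  q := 3
  hU := comp_nat_add Computable.id (Computable.const c)
  hUn := fun n => Nat.le_add_right _ _
  hAc := comp_third_pre.comp (comp_nat_add Computable.fst (Computable.const c)) Computable.snd
  hA1 := fun _ _ _ h => third_congr h
  hA2 := fun _ _ _ _ hj h => pre_eq_of_le (by omega) h
  hGre := re_GS hφ c
  hGs := GS_unique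

/-- the required patterns -/
def PatP (c : ℕ) (s : List Bool) : Prop :=
  num s % 2 ^ c = 0 ∧ (num s / 2 ^ c) % 4 ≠ 0 ∧ num s % 3 ≠ 0

theorem patP_comp (c : ℕ) : ComputablePred (PatP c) := by
  unfold PatP
  refine CP_and (CP_eq (comp_nat_mod comp_num (Computable.const _)) (Computable.const 0))
    (CP_and (CP_not (CP_eq ?_ (Computable.const 0))) (CP_not (CP_eq ?_ (Computable.const 0))))
  · exact comp_nat_mod (comp_nat_div comp_num (Computable.const _)) (Computable.const 4)
  · exact comp_nat_mod comp_num (Computable.const 3)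

theorem patP_ext (c : ℕ) (s : List Bool) :
    ∃ s' : List Bool, s'.length = s.length + (c + 2) ∧ s <+: s' ∧ PatP c s' := by
  have h3 : ∀ c : ℕ, 2 ^ c % 3 = 1 ∨ 2 ^ c % 3 = 2 := by
    intro c
    induction c with
    | zero => simp
    | succ c ih => rw [pow_succ]; omega
  obtain ⟨e, he1, he2, he3⟩ : ∃ e : ℕ, 0 < e ∧ e < 4 ∧ (num s + e) % 3 ≠ 0 := by
    by_cases h : num s % 3 = 2
    · exact ⟨2, by norm_num, by norm_num, by omega⟩
    · exact ⟨1, by norm_num, by norm_num, by omega⟩
  refine ⟨s ++ bits (c + 2) (e * 2 ^ c), by simp, List.prefix_append _ _, ?_⟩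
  have hlt : e * 2 ^ c < 2 ^ (c + 2) := by
    rw [pow_add, mul_comm]
    have : (0 : ℕ) < 2 ^ c := by positivity
    exact Nat.mul_lt_mul_of_pos_left (by omega) this
  have hnum : num (s ++ bits (c + 2) (e * 2 ^ c)) = (4 * num s + e) * 2 ^ c := by
    rw [num_append, num_bits hlt, length_bits, pow_add]; ring
  unfold PatP
  rw [hnum]
  refine ⟨Nat.mul_mod_left _ _, ?_, ?_⟩
  · rw [Nat.mul_div_cancel _ (by positivity)]; omega
  · rw [Nat.mul_mod]
    rcases h3 c with h | h <;> rw [h]
    · omega
    · omega

/-- **Non-reducibility.** -/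
theorem not_sw_third {X : ℕ → Bool} (hX : MLRandom X) : ¬ SWReducible X (third X) := by
  rintro ⟨c0, φ0, hφ0, h0⟩
  -- we may assume that the constant is positive
  obtain ⟨c, φ, hc, hφ, hred⟩ : ∃ (c : ℕ) (φ : ℕ × List Bool →. Bool), 1 ≤ c ∧ Partrec φ ∧
      ∀ n : ℕ, X n ∈ φ (n, pre (third X) (n + c + 1)) := by
    refine ⟨c0 + 1, fun x => φ0 (x.1, x.2.take (x.1 + c0 + 1)), by omega, ?_, fun n => ?_⟩
    · have h1 : Computable fun x : ℕ × List Bool => x.2.take (x.1 + c0 + 1) :=
        comp_take.comp (Computable.succ.comp (comp_nat_add Computable.fst (Computable.const c0)))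
          Computable.snd
      exact hφ0.comp (Computable.fst.pair h1)
    · change X n ∈ φ0 (n, (pre (third X) (n + (c0 + 1) + 1)).take (n + c0 + 1))
      rw [pre_take _ (by omega)]
      exact h0 n
  let D := thirdData hφ c
  have hG : ∀ n, D.n0 ≤ n → D.G n (D.A n X) (pre X n) := by
    intro n _
    change GS φ c n (pre (third X) (n + c)) (pre X n)
    refine ⟨length_pre _ _, fun i hi => ?_⟩
    rw [pre_getD X hi, pre_take _ (by omega)]
    exact hred i
  obtain ⟨n', N, -, hn'N, hmain⟩ := D.chain_main (c := 2) (by decide : 0 < 3)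
    (by decide : 2 * 2 ^ 2 ≤ 3 ^ 2) hX hG
  -- a pattern beyond `N`
  obtain ⟨i, hi1, hi2, hi3⟩ := hX.pattern (patP_comp c) (patP_ext c) N
  set L := N + (i + 1) * (c + 2) with hL
  have hLN : N + (c + 2) ≤ L := by
    have : 1 * (c + 2) ≤ (i + 1) * (c + 2) := Nat.mul_le_mul_right _ (by omega)
    omega
  obtain ⟨n, hn⟩ : ∃ n, L = n + c := ⟨L - c, by omega⟩
  have hnN : n > N := by omega
  have hm := hmain n hnN
  set x := num (pre X L) with hx
  have hxlt : x < 2 ^ L := by simpa using num_lt (pre X L)
  have hp : D.p = 2 := rfl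
  have hq : D.q = 3 := rfl
  rw [hp, hq] at hm
  -- the top-level weight is at least `3`
  have hA : D.A n X = pre (third X) L := by
    change pre (third X) (n + c) = _
    rw [← hn]
  have hU : D.U n = L := hn.symm
  have key : ∀ j < 2 ^ L, D.A n (ext (bits L j)) = D.A n X ↔ j / 3 = x / 3 := by
    intro j hj
    have e1 : D.A n (ext (bits L j)) = pre (third (ext (bits L j))) L := by
      change pre (third (ext (bits L j))) (n + c) = _
      rw [← hn]
    rw [e1, hA, pre_third, pre_third]
    have e2 : pre (ext (bits L j)) L = bits L j := by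
      have := pre_ext_length (bits L j)
      rwa [length_bits] at this
    rw [e2, num_bits hj]
    constructor
    · intro h
      exact bits_injOn (lt_of_le_of_lt (Nat.div_le_self _ _) hj)
        (lt_of_le_of_lt (Nat.div_le_self _ _) hxlt) h
    · intro h
      rw [h]
  have htake : ∀ k ≤ L, ∀ j < 2 ^ L, (bits L j).take k = pre X k ↔
      j / 2 ^ (L - k) = x / 2 ^ (L - k) := by
    intro k hk j hj
    rw [← pre_take X hk]
    constructor
    · intro h
      have h1 := congrArg num h
      rwa [num_take _ (by simpa using hk), num_take _ (by simpa using hk), length_bits, length_pre,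
        num_bits hj] at h1
    · intro h
      refine num_inj (by simp) ?_
      rwa [num_take _ (by simpa using hk), num_take _ (by simpa using hk), length_bits, length_pre,
        num_bits hj]
  have hW : ∀ k ≤ L, D.W n k (D.A n X) (pre X k) =
      ((Finset.range (2 ^ L)).filter fun j => j / 3 = x / 3 ∧
        j / 2 ^ (L - k) = x / 2 ^ (L - k)).card := by
    intro k hk
    unfold ChainData.W cnt
    rw [hU]
    classical
    have : ∀ j ∈ Finset.range (2 ^ L), ((D.A n (ext (bits L j)) = D.A n X ∧
        (bits L j).take k = pre X k) ↔ (j / 3 = x / 3 ∧ j / 2 ^ (L - k) = x / 2 ^ (L - k))) := by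
      intro j hj
      rw [Finset.mem_range] at hj
      rw [key j hj, htake k hk j hj]
    rw [Finset.filter_congr_decidable]
    rw [Finset.filter_congr this]
  rw [hW n' (by omega), hW n (by omega)] at hm
  have hLn : L - n = c := by omega
  rw [hLn] at hm
  -- lower bound 3 for the first
  set P := 2 ^ c with hPdef
  have hP2 : 2 ≤ P := by
    calc 2 = 2 ^ 1 := rfl
      _ ≤ 2 ^ c := Nat.pow_le_pow_right (by norm_num) hc
  -- write `x = (4 y + e) P`
  obtain ⟨y, e, he0, he4, hxe⟩ : ∃ y e, 0 < e ∧ e < 4 ∧ x = (4 * y + e) * P := by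
    refine ⟨(x / P) / 4, (x / P) % 4, by omega, by omega, ?_⟩
    have h1 : x = P * (x / P) + x % P := (Nat.div_add_mod x P).symm
    rw [hi1] at h1
    have h2 : 4 * ((x / P) / 4) + (x / P) % 4 = x / P := Nat.div_add_mod _ _
    rw [h2, mul_comm]; omega
  have hQ : ∃ Q, 2 ^ (L - n') = 4 * P * Q := by
    refine ⟨2 ^ (L - n' - (c + 2)), ?_⟩
    rw [hPdef, show (4 : ℕ) = 2 ^ 2 by norm_num, ← pow_add, ← pow_add]
    congr 1; omega
  obtain ⟨Q, hQ⟩ := hQ
  have hblock : ∀ j, x - 2 ≤ j → j ≤ x + 1 → j / 2 ^ (L - n') = y / Q := by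
    intro j h1 h2
    have h3 : j / (4 * P) = y := by
      have hPpos : 0 < 4 * P := by omega
      rw [Nat.div_eq_iff hPpos]
      have e1 : e * P ≤ 3 * P := Nat.mul_le_mul_right _ (by omega)
      have e2 : 1 * P ≤ e * P := Nat.mul_le_mul_right _ (by omega)
      have e3 : x = 4 * y * P + e * P := by rw [hxe, add_mul]
      have e4 : y * (4 * P) = 4 * y * P := by ring
      constructor <;> omega
    rw [hQ, ← Nat.div_div_eq_div_mul, h3]
  have hblockx : x / 2 ^ (L - n') = y / Q := hblock x (by omega) (by omega)
  have hxP : P ≤ x := by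
    rw [hxe]
    calc P = 1 * P := (one_mul P).symm
      _ ≤ (4 * y + e) * P := Nat.mul_le_mul_right _ (by omega)
  -- the upper bound `x + 1 < 2 ^ L`
  have htop : x + 1 < 2 ^ L := by
    have h1 : (x + 1) / 2 ^ (L - n') = x / 2 ^ (L - n') := by
      rw [hblock _ (by omega) (by omega), hblockx]
    have h2 : x / 2 ^ (L - n') < 2 ^ n' := by
      rw [Nat.div_lt_iff_lt_mul (by positivity), ← pow_add]
      have : n' + (L - n') = L := by omega
      rw [this]; exact hxlt
    rw [← h1, Nat.div_lt_iff_lt_mul (by positivity), ← pow_add] at h2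
    have : n' + (L - n') = L := by omega
    rwa [this] at h2
  have hlow : 3 ≤ ((Finset.range (2 ^ L)).filter fun j => j / 3 = x / 3 ∧
        j / 2 ^ (L - n') = x / 2 ^ (L - n')).card := by
    have h1 : Finset.Ico (3 * (x / 3)) (3 * (x / 3) + 3) ⊆ ((Finset.range (2 ^ L)).filter fun j =>
        j / 3 = x / 3 ∧ j / 2 ^ (L - n') = x / 2 ^ (L - n')) := by
      intro j hj
      rw [Finset.mem_Ico] at hj
      rw [Finset.mem_filter, Finset.mem_range, hblockx]
      have hx3 : x % 3 ≠ 0 := hi3
      refine ⟨by omega, by omega, hblock j (by omega) (by omega)⟩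
    have h2 := Finset.card_le_card h1
    simpa using h2
  have hupp : ((Finset.range (2 ^ L)).filter fun j => j / 3 = x / 3 ∧
        j / P = x / P).card ≤ 2 := by
    have h1 : ((Finset.range (2 ^ L)).filter fun j => j / 3 = x / 3 ∧ j / P = x / P) ⊆
        (Finset.Ico (3 * (x / 3)) (3 * (x / 3) + 3)).erase (x - 1) := by
      intro j hj
      rw [Finset.mem_filter, Finset.mem_range] at hj
      rw [Finset.mem_erase, Finset.mem_Ico]
      refine ⟨?_, by omega, by omega⟩
      rintro rfl
      have h3 := hj.2.2
      have h4 : x / P = 4 * y + e := by rw [hxe]; exact Nat.mul_div_cancel _ (by omega)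
      have h5 : (x - 1) / P < 4 * y + e := by
        rw [Nat.div_lt_iff_lt_mul (by omega), ← hxe]; omega
      omega
    have h2 := Finset.card_le_card h1
    rw [Finset.card_erase_of_mem] at h2
    · simpa using h2
    · rw [Finset.mem_Ico]
      have hx3 : x % 3 ≠ 0 := hi3
      omega
  omega

end Pool.Agent.OmegaTT
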