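import Mathlib
import Pool.Agent.Lib.MP_a2e505_lc.Val

/-!
Any left-c.e. random real can be decoded from any other one with computable use.
-/

namespace Pool.Agent.OmegaTT

open MeasureTheory
open scoped ENNReal

/-- stage-`t` approximation of the first `n` bits, as a number -/
def lb (f : ℕ × ℕ → ℕ → Bool) (n t : ℕ) : ℕ :=
  (List.range (2 ^ n)).foldl (fun s j => cond (f (j, 2 ^ n - 1) t) j s) 0

theorem comp_lb {f : ℕ × ℕ → ℕ → Bool} (hf : Computable₂ f) : Computable₂ (lb f) := by
  unfold lb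
  refine comp_list_foldl (h := fun (x : ℕ × ℕ) (p : ℕ × ℕ) =>
    cond (f (p.2, 2 ^ x.1 - 1) x.2) p.2 p.1) ?_ (Computable.const _) ?_
  · exact comp_list_range (comp_pow2.to_comp.comp Computable.fst)
  · refine Computable.cond ?_ (Computable.snd.comp Computable.snd)
      (Computable.fst.comp Computable.snd)
    refine hf.comp (Computable.pair (Computable.snd.comp Computable.snd) ?_)
      (Computable.snd.comp Computable.fst)
    exact comp_nat_sub (comp_pow2.to_comp.comp (Computable.fst.comp Computable.fst))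
      (Computable.const 1)

theorem foldl_last (p : ℕ → Bool) (N : ℕ) :
    let r := (List.range N).foldl (fun s j => cond (p j) j s) 0
    (r = 0 ∨ (r < N ∧ p r = true)) ∧ ∀ j < N, p j = true → j ≤ r := by
  induction N with
  | zero => simp
  | succ N ih =>
    simp only [List.range_succ, List.foldl_append, List.foldl_cons, List.foldl_nil]
    obtain ⟨h1, h2⟩ := ih
    cases hp : p N with
    | true =>
      simp only [cond_true]
      refine ⟨Or.inr ⟨Nat.lt_succ_self N, hp⟩, fun j hj _ => Nat.lt_succ_iff.1 hj⟩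
    | false =>
      simp only [cond_false]
      refine ⟨h1.imp_right fun h => ⟨Nat.lt_succ_of_lt h.1, h.2⟩, fun j hj hpj => ?_⟩
      rcases Nat.lt_succ_iff_lt_or_eq.1 hj with h | h
      · exact h2 j h hpj
      · subst h; simp [hp] at hpj

/-- data about a left-c.e. random real -/
structure Appr (X : ℕ → Bool) (f : ℕ × ℕ → ℕ → Bool) : Prop where
  comp : Computable₂ f
  mono : ∀ a s t, s ≤ t → f a s = true → f a t = true
  spec : ∀ r : ℕ × ℕ, (r.1 : ℝ) / ((r.2 : ℝ) + 1) < val X ↔ ∃ s, f r s = true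
  rand : MLRandom X

theorem exists_appr {X : ℕ → Bool} (h : OmegaNumber X) : ∃ f, Appr X f := by
  obtain ⟨f, h1, h2, h3⟩ := RE_approx h.2
  exact ⟨f, h1, h2, h3, h.1⟩

namespace Appr

variable {X : ℕ → Bool} {f : ℕ × ℕ → ℕ → Bool} (h : Appr X f)
include h

theorem spec' (n j : ℕ) : (j : ℝ) < 2 ^ n * val X ↔ ∃ s, f (j, 2 ^ n - 1) s = true := by
  rw [← h.spec (j, 2 ^ n - 1)]
  have h1 : (1 : ℕ) ≤ 2 ^ n := Nat.one_le_two_pow
  simp only
  rw [Nat.cast_sub h1]
  push_cast
  rw [sub_add_cancel, div_lt_iff₀ (by positivity), mul_comm]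

theorem lb_lt (n t : ℕ) : lb f n t < 2 ^ n := by
  have := (foldl_last (fun j => f (j, 2 ^ n - 1) t) (2 ^ n)).1
  rcases this with h1 | h1
  · change lb f n t = 0 at h1
    rw [h1]; positivity
  · exact h1.1

theorem le_lb {n t j : ℕ} (hj : j < 2 ^ n) (hf : f (j, 2 ^ n - 1) t = true) : j ≤ lb f n t :=
  (foldl_last (fun j => f (j, 2 ^ n - 1) t) (2 ^ n)).2 j hj hf

theorem lb_spec (n t : ℕ) : lb f n t = 0 ∨ f (lb f n t, 2 ^ n - 1) t = true :=
  ((foldl_last (fun j => f (j, 2 ^ n - 1) t) (2 ^ n)).1).imp_right fun h => h.2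

theorem lb_mono (n : ℕ) : Monotone (lb f n) := by
  intro s t hst
  rcases h.lb_spec n s with h1 | h1
  · rw [h1]; exact Nat.zero_le _
  · exact h.le_lb (h.lb_lt n s) (h.mono _ _ _ hst h1)

theorem lb_le_num (n t : ℕ) : lb f n t ≤ num (pre X n) := by
  rcases h.lb_spec n t with h1 | h1
  · rw [h1]; exact Nat.zero_le _
  · have h2 := (h.spec' n _).2 ⟨t, h1⟩
    have h3 := h.rand.val_lt_num n
    have h4 : (lb f n t : ℝ) < num (pre X n) + 1 := h2.trans h3
    have h5 : lb f n t < num (pre X n) + 1 := by exact_mod_cast h4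
    omega

theorem num_lt' (n : ℕ) : num (pre X n) < 2 ^ n := by simpa using num_lt (pre X n)

theorem lb_eq {n t : ℕ} (hf : f (num (pre X n), 2 ^ n - 1) t = true) :
    lb f n t = num (pre X n) :=
  le_antisymm (h.lb_le_num n t) (h.le_lb (h.num_lt' n) hf)

theorem exists_stage (n : ℕ) : ∃ t, f (num (pre X n), 2 ^ n - 1) t = true :=
  (h.spec' n _).1 (h.rand.num_lt_val n)

theorem exists_lb (n : ℕ) : ∃ t, ∀ s ≥ t, lb f n s = num (pre X n) := by
  obtain ⟨t, ht⟩ := h.exists_stage n
  exact ⟨t, fun s hs => h.lb_eq (h.mono _ _ _ hs ht)⟩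

theorem bits_num_pre (n : ℕ) : bits n (num (pre X n)) = pre X n := by
  simpa using bits_num (pre X n)

end Appr

/-- stages at which the approximation to the first `n` bits of the second real changes -/
def Ch (g : ℕ × ℕ → ℕ → Bool) (n : ℕ) : Set ℕ := {t | lb g n t ≠ lb g n (t + 1)}

theorem Ch_bound {Y : ℕ → Bool} {g : ℕ × ℕ → ℕ → Bool} (h : Appr Y g) (n : ℕ) :
    ∃ F : Finset ℕ, (∀ t, t ∈ Ch g n → t ∈ F) ∧ F.card ≤ 2 ^ n := by
  classical
  have hinj : Set.InjOn (lb g n) (Ch g n) := by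
    have aux : ∀ s ∈ Ch g n, ∀ t, s < t → lb g n s < lb g n t := by
      intro s hs t hst
      have h1 : lb g n s < lb g n (s + 1) :=
        lt_of_le_of_ne (h.lb_mono n (Nat.le_succ s)) hs
      exact h1.trans_le (h.lb_mono n hst)
    intro s hs t ht hst
    rcases lt_trichotomy s t with h1 | h1 | h1
    · exact absurd hst (aux s hs t h1).ne
    · exact h1
    · exact absurd hst.symm (aux t ht s h1).ne
  have himg : (lb g n '' Ch g n) ⊆ (Finset.range (2 ^ n) : Set ℕ) := by
    rintro _ ⟨t, -, rfl⟩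
    simpa using h.lb_lt n t
  have hfin : (Ch g n).Finite :=
    Set.Finite.of_finite_image ((Finset.finite_toSet _).subset himg) hinj
  refine ⟨hfin.toFinset, fun t ht => by simpa using ht, ?_⟩
  have h1 : (hfin.toFinset.image (lb g n)).card = hfin.toFinset.card :=
    Finset.card_image_of_injOn (by simpa using hinj)
  rw [← h1]
  calc (hfin.toFinset.image (lb g n)).card ≤ (Finset.range (2 ^ n)).card := by
        refine Finset.card_le_card fun j hj => ?_
        simp only [Finset.mem_image, Set.Finite.mem_toFinset] at hj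
        obtain ⟨t, ht, rfl⟩ := hj
        simpa using h.lb_lt n t
    _ = 2 ^ n := Finset.card_range _

/-- the use function -/
def mm (n : ℕ) : ℕ := 2 * n + 1

/-- the decoding relation -/
def GG' (f g : ℕ × ℕ → ℕ → Bool) (n : ℕ) (a s : List Bool) : Prop :=
  ∃ t, f (num a, 2 ^ mm n - 1) t = true ∧ (∀ t' < t, f (num a, 2 ^ mm n - 1) t' ≠ true) ∧
    s = bits n (lb g n t)

theorem GG'_unique {f g : ℕ × ℕ → ℕ → Bool} (n : ℕ) (a s s' : List Bool)
    (h : GG' f g n a s) (h' : GG' f g n a s') : s = s' := by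
  obtain ⟨t, h1, h2, rfl⟩ := h
  obtain ⟨t', h1', h2', rfl⟩ := h'
  rcases lt_trichotomy t t' with h3 | h3 | h3
  · exact absurd h1 (h2' t h3)
  · rw [h3]
  · exact absurd h1' (h2 t' h3)

theorem comp_mm : Computable mm :=
  Computable.succ.comp (comp_nat_mul (Computable.const 2) Computable.id)

theorem re_GG' {f g : ℕ × ℕ → ℕ → Bool} (hf : Computable₂ f) (hg : Computable₂ g) :
    REPred fun r : ℕ × List Bool × List Bool => GG' f g r.1 r.2.1 r.2.2 := by
  unfold GG'
  refine RE_of_exists ?_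
  have hn : Computable fun y : (ℕ × List Bool × List Bool) × ℕ => y.1.1 :=
    Computable.fst.comp Computable.fst
  have ha : Computable fun y : (ℕ × List Bool × List Bool) × ℕ => y.1.2.1 :=
    Computable.fst.comp (Computable.snd.comp Computable.fst)
  have hs : Computable fun y : (ℕ × List Bool × List Bool) × ℕ => y.1.2.2 :=
    Computable.snd.comp (Computable.snd.comp Computable.fst)
  have hr : Computable fun y : (ℕ × List Bool × List Bool) × ℕ =>
      (num y.1.2.1, 2 ^ mm y.1.1 - 1) :=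
    Computable.pair (comp_num.comp ha)
      (comp_nat_sub (comp_pow2.to_comp.comp (comp_mm.comp hn)) (Computable.const 1))
  refine CP_and (CP_bool (hf.comp hr Computable.snd)) (CP_and ?_ ?_)
  · refine CP_forall_lt Computable.snd ?_
    exact CP_not (CP_bool (hf.comp (hr.comp Computable.fst) Computable.snd))
  · exact CP_eq hs (comp_bits.comp hn ((comp_lb hg).comp hn Computable.snd))

/-- one level of the test -/
def VV (f g : ℕ × ℕ → ℕ → Bool) (n : ℕ) (a : List Bool) : Prop :=
  ∃ t, a = bits (mm n) (lb f (mm n) t) ∧ lb g n t ≠ lb g n (t + 1)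

theorem coin_VV {Y : ℕ → Bool} {f g : ℕ × ℕ → ℕ → Bool} (h : Appr Y g) (n : ℕ) :
    coin (Opn (VV f g n)) ≤ (2⁻¹ : ℝ≥0∞) ^ (n + 1) := by
  obtain ⟨F, hF, hcard⟩ := Ch_bound h n
  have h1 : Opn (VV f g n) ⊆ ⋃ t ∈ F, Cyl (bits (mm n) (lb f (mm n) t)) := by
    intro Z hZ
    rw [mem_Opn] at hZ
    obtain ⟨s, ⟨t, rfl, ht⟩, hs⟩ := hZ
    simp only [Set.mem_iUnion]
    exact ⟨t, hF t ht, hs⟩
  calc coin (Opn (VV f g n)) ≤ coin (⋃ t ∈ F, Cyl (bits (mm n) (lb f (mm n) t))) :=
        measure_mono h1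
    _ ≤ ∑ t ∈ F, coin (Cyl (bits (mm n) (lb f (mm n) t))) := measure_biUnion_finset_le _ _
    _ = F.card * (2⁻¹ : ℝ≥0∞) ^ (mm n) := by
        simp only [coin_Cyl, length_bits, Finset.sum_const, nsmul_eq_mul]
    _ ≤ ((2 ^ n : ℕ) : ℝ≥0∞) * (2⁻¹ : ℝ≥0∞) ^ (mm n) := by gcongr
    _ ≤ (2⁻¹ : ℝ≥0∞) ^ (n + 1) := by
        rw [ennreal_half_pow_le, ← pow_add]
        exact Nat.pow_le_pow_right (by norm_num) (by unfold mm; omega)

/-- **wtt decoding** between left-c.e. random reals. -/
theorem wtt_decode {X Y : ℕ → Bool} {f g : ℕ × ℕ → ℕ → Bool} (hX : Appr X f) (hY : Appr Y g) :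
    ∃ n0, ∀ n, n0 ≤ n → GG' f g n (pre X (mm n)) (pre Y n) := by
  let V : ℕ → List Bool → Prop := fun k a => ∃ n, k ≤ n ∧ VV f g n a
  have hV : IsMLTest V := by
    constructor
    · refine RE_exists ?_
      refine RE_and (ComputablePred.to_re (CP_le (Computable.fst.comp Computable.fst)
        Computable.snd)) ?_
      unfold VV
      refine RE_of_exists ?_
      have hn : Computable fun y : ((ℕ × List Bool) × ℕ) × ℕ => y.1.2 :=
        Computable.snd.comp Computable.fst
      refine CP_and (CP_eq ?_ ?_) (CP_not (CP_eq ?_ ?_))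
      · exact Computable.snd.comp (Computable.fst.comp Computable.fst)
      · exact comp_bits.comp (comp_mm.comp hn) ((comp_lb hX.comp).comp (comp_mm.comp hn)
          Computable.snd)
      · exact (comp_lb hY.comp).comp hn Computable.snd
      · exact (comp_lb hY.comp).comp hn (Computable.succ.comp Computable.snd)
    · intro k
      change coin (Opn (V k)) ≤ _
      have h1 : Opn (V k) ⊆ ⋃ i, Opn (VV f g (k + i)) := by
        intro Z hZ
        rw [mem_Opn] at hZ
        obtain ⟨s, ⟨n, hn, hs⟩, hZs⟩ := hZ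
        refine Set.mem_iUnion.2 ⟨n - k, mem_Opn.2 ⟨s, ?_, hZs⟩⟩
        rwa [Nat.add_sub_cancel' hn]
      calc coin (Opn (V k)) ≤ coin (⋃ i, Opn (VV f g (k + i))) := measure_mono h1
        _ ≤ ∑' i, coin (Opn (VV f g (k + i))) := measure_iUnion_le _
        _ ≤ ∑' i : ℕ, (2⁻¹ : ℝ≥0∞) ^ k * (2⁻¹ : ℝ≥0∞) ^ (i + 1) := by
            refine ENNReal.tsum_le_tsum fun i => ?_
            rw [← pow_add]
            exact coin_VV hY (k + i)
        _ = (2⁻¹ : ℝ≥0∞) ^ k := by
            rw [ENNReal.tsum_mul_left, ENNReal.tsum_geometric_add_one, ENNReal.one_sub_inv_two,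
              inv_inv, ENNReal.inv_mul_cancel (by norm_num) (by norm_num), mul_one]
  obtain ⟨k, hk⟩ := hX.rand V hV
  change X ∉ Opn (V k) at hk
  refine ⟨k, fun n hn => ?_⟩
  classical
  have hex := hX.exists_stage (mm n)
  refine ⟨Nat.find hex, Nat.find_spec hex, fun t' ht' => Nat.find_min hex ht', ?_⟩
  by_contra hcon
  obtain ⟨t1, ht1⟩ := hY.exists_lb n
  have hne : lb g n (Nat.find hex) ≠ num (pre Y n) := by
    intro he
    rw [he, hY.bits_num_pre] at hcon
    exact hcon rfl
  have h2 : ∃ t ≥ Nat.find hex, lb g n t ≠ lb g n (t + 1) := by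
    by_contra hc
    push Not at hc
    have h3 : ∀ t ≥ Nat.find hex, lb g n t = lb g n (Nat.find hex) := by
      intro t ht
      induction t, ht using Nat.le_induction with
      | base => rfl
      | succ t ht ih => rw [← hc t ht, ih]
    apply hne
    rw [← h3 (max t1 (Nat.find hex)) (le_max_right _ _)]
    exact ht1 _ (le_max_left _ _)
  obtain ⟨t, ht, hch⟩ := h2
  apply hk
  rw [mem_Opn]
  refine ⟨pre X (mm n), ⟨n, hn, t, ?_, hch⟩, by simp⟩
  rw [hX.lb_eq (hX.mono _ _ _ ht (Nat.find_spec hex)), hX.bits_num_pre]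

end Pool.Agent.OmegaTT
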